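import Pool.Agent.D0H64.MX.Stm

/-!
# Second part of project MX: a uniform bound with `d ^ (3/4)` and iterated wreath products

The library has `QuadUnif` (exponent `7/4` of `d`).  With the exponent `3/4` the class of pairs
`(H, X)` becomes closed under `(H, X) ↦ (C₂ ≀_X H, X × {0, 1})`, so all the iterated wreath products
`C₂ ≀ ⋯ ≀ C₂ ≀_X H` are covered.
-/

set_option autoImplicit false

open NumberField Filter Topology

namespace Pool.Agent.D0H64.MX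

open Pool.Agent.TH444.ML

/-- the absolute value of the discriminant -/
noncomputable def dK (M : Type) [Field M] [NumberField M] : ℝ := ((|discr M| : ℤ) : ℝ)

/-- MODULE IDE (30 min; model: J3091 (TH89), 278 lines, which has `5/4`).  The number of ideals of
norm `n` is at most `τ_D(n) ≤ C n ^ ε`. -/
def S_IDE : Prop :=
  ∀ (D : ℕ) (ε : ℝ), 0 < ε → ∃ C : ℝ, 0 < C ∧ ∀ (M : Type) [Field M] [NumberField M],
    Module.finrank ℚ M = D → ∀ Y : ℝ, 1 ≤ Y →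
      {I : Ideal (𝓞 M) | I ≠ ⊥ ∧ (Ideal.absNorm I : ℝ) ≤ Y}.Finite ∧
      (Set.ncard {I : Ideal (𝓞 M) | I ≠ ⊥ ∧ (Ideal.absNorm I : ℝ) ≤ Y} : ℝ) ≤ C * Y ^ (1 + ε)

/-- MODULE BOX (60 min).  `C`, `A` depend on the degree only.  Points of an ideal in a large box:
let `β ∈ 𝔞`, `β ≠ 0`, with `w β ≤ (C √d N𝔞) ^ (1/D)` for all `w` (Minkowski, Mathlib's
`exists_ne_zero_mem_ideal_lt`) and `a ∈ 𝓞` with `ℚ(a) = M`, `w a ≤ C √d` (Mathlib:
`exists_primitive_element_lt_of_isReal`, `.._of_isComplex`, used in its Hermite theorem).  The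
`β a ^ i`, `i < D`, are a basis of a sublattice `Λ'` of `𝔞` inside the box of size
`R = C d ^ A' N𝔞 ^ (1/D) ≤ B`.  In each coset of `Λ'` in `𝔞` there are at most
`vol(box(B + D R)) / covol(Λ')` points of the box `B` (disjoint translates of the fundamental
parallelepiped), and there are `[𝔞 : Λ'] = covol(Λ') / covol(𝔞)` cosets
(`ZLattice.covolume_div_covolume_eq_relIndex`), `covol(𝔞) = 2 ^ (-r₂) √d N𝔞`. -/
def S_BOX : Prop :=
  ∀ D : ℕ, ∃ C A : ℝ, 0 < C ∧ 0 < A ∧ ∀ (M : Type) [Field M] [NumberField M],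
    Module.finrank ℚ M = D → ∀ 𝔞 : Ideal (𝓞 M), 𝔞 ≠ ⊥ → ∀ B : ℝ, 0 < B →
      dK M ^ A * Ideal.absNorm 𝔞 ≤ B ^ D →
      {z : 𝓞 M | z ∈ 𝔞 ∧ ∀ w : InfinitePlace M, w (z : M) ≤ B}.Finite ∧
      (Set.ncard {z : 𝓞 M | z ∈ 𝔞 ∧ ∀ w : InfinitePlace M, w (z : M) ≤ B} : ℝ) *
        (Real.sqrt (dK M) * Ideal.absNorm 𝔞) ≤ C * B ^ D

/-- MODULE IDU (60 min; theorem `t_IDU : S_IDE → S_BOX → S_IDU`; model: J3092 (TH55), whose trick
`balance` is used).  For `Y ≤ d ^ A` this is `S_IDE` with a smaller `ε`.  Let `Y > d ^ A`, `A` large,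
`h` = number of classes.  As `∑_(NJ ≤ C √d) 1/NJ ≤ C d ^ ε` over all ideals `J` (dyadic blocks and
`S_IDE`), some class `c₀` has `∑_(J ∈ c₀, NJ ≤ C √d) 1/NJ ≤ C d ^ ε / h`; let `𝔠` be an ideal
in the class `c₀⁻¹`, of norm `≤ C √d`.  Let `k` be any class, `𝔟` an ideal of norm `≤ C √d` in `k⁻¹`.
For `I` in `k` with `NI ≤ Y` write `I 𝔟 = (x)`; by Minkowski's theorem for the lattice `𝔠` in a box
with sides inverse to the `w x` there is `β ∈ 𝔠`, `β ≠ 0`, with `|N β| ≤ C √d N𝔠` and all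
`w(β x) ≤ B`, `B ^ D = C √d N𝔠 N𝔟 Y`.  Put `J = (β) 𝔠⁻¹`, `z = β x`: `J ∈ c₀`, `NJ ≤ C √d`,
`(z) = J 𝔠 I 𝔟`, so the pair `(J, z)` determines `I`, and `z ∈ J 𝔠 𝔟` lies in the box `B`: by
`S_BOX` there are at most `C Y / NJ` such `z` for each `J`.  Total: `h ∑_J C Y / NJ ≤ C d ^ ε Y`. -/
def S_IDU : Prop :=
  ∀ (D : ℕ) (ε : ℝ), 0 < ε → ∃ C : ℝ, 0 < C ∧ ∀ (M : Type) [Field M] [NumberField M],
    Module.finrank ℚ M = D → ∀ Y : ℝ, 1 ≤ Y →
      (Set.ncard {I : Ideal (𝓞 M) | I ≠ ⊥ ∧ (Ideal.absNorm I : ℝ) ≤ Y} : ℝ) ≤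
        C * dK M ^ ε * Y

/-- MODULE QU2 (40 min; theorem `t_QU2 : DiscQuad → KumP → S_IDE → S_IDU → S_QU2`; model:
J3093 (TH293)).  With `rep` of norms `≤ C √d` a quadratic extension in `QS M E Y` is given by a
class `C`, and `α` modulo squares of units with `(α) = 𝔡 (rep C) ^ 2`, `N𝔡 ≤ 4 ^ D Y`.  The number
of triples is at most `h · #{𝔡} · #(units modulo squares) ≤ C d ^ (1/2 + ε) · C d ^ ε Y · 2 ^ D`
(the class number is at most the number of ideals of norm `≤ C √d`). -/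
def S_QU2 : Prop :=
  ∀ D : ℕ, ∃ C : ℝ, ∀ (M E : Type) [Field M] [NumberField M] [Field E] [Algebra M E]
    [IsAlgClosed E], Module.finrank ℚ M = D → ∀ Y : ℝ, 0 ≤ Y →
      (QS M E Y).Finite ∧
      (Set.ncard (QS M E Y) : ℝ) ≤ C * ((|discr M| : ℤ) : ℝ) ^ (3 / 4 : ℝ) * Y

/-- the wreath product `C₂ ≀ G` of a permutation group `G` of `Y`, a permutation group of
`Y × {0, 1}` -/
def wr {Y : Type} (G : Subgroup (Equiv.Perm Y)) : Subgroup (Equiv.Perm (Y × Bool)) where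
  carrier := {π | ∃ h ∈ G, ∀ x : Y × Bool, (π x).1 = h x.1}
  mul_mem' := by
    rintro a b ⟨h, hh, ha⟩ ⟨g, hg, hb⟩
    exact ⟨h * g, G.mul_mem hh hg, fun x => by
      rw [Equiv.Perm.mul_apply, ha, hb, Equiv.Perm.mul_apply]⟩
  one_mem' := ⟨1, G.one_mem, fun x => rfl⟩
  inv_mem' := by
    rintro a ⟨h, hh, ha⟩
    refine ⟨h⁻¹, G.inv_mem hh, fun x => ?_⟩
    have h1 := ha (a⁻¹ x)
    rw [← Equiv.Perm.mul_apply, mul_inv_cancel, Equiv.Perm.one_apply] at h1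
    rw [h1, ← Equiv.Perm.mul_apply, inv_mul_cancel, Equiv.Perm.one_apply]

/-- the property which is inherited: there are extensions with group `G` acting on `Y`, and
they are few enough -/
def Good (K Ω : Type) [Field K] [NumberField K] [Field Ω] [Algebra K Ω] (H X : Type) [Group H]
    [MulAction H X] : Prop :=
  (GalX K Ω H X).Nonempty ∧ Summable (fun M : GalX K Ω H X => (dsc M.1) ^ (-(5 / 4) : ℝ))

/-- MODULE ITR (30 min).  Asymptotics `c T` give a convergent sum of `d ^ (-5/4)` (dyadic blocks) and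
a nonempty set; `GalX` for `wr G` acting on `Y × Bool` is the set of the `L` of degree `2 |Y|` with
`IsWrX K Ω G Y L`. -/
def S_ITR : Prop :=
  ∀ (K Ω : Type) [Field K] [NumberField K] [Field Ω] [Algebra K Ω] [IsAlgClosure K Ω]
    (Y : Type) [Finite Y] [Nonempty Y] (G : Subgroup (Equiv.Perm Y)),
    (∀ Z : ℝ, 0 < Z → {L : IntermediateField K Ω | Module.finrank K L = 2 * Nat.card Y ∧
      IsWrX K Ω G Y L ∧ dsc L ≤ Z * 1}.Finite) →
    (∃ c : ℝ, 0 < c ∧ Tendsto (fun Z : ℝ => (Set.ncard {L : IntermediateField K Ω |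
        Module.finrank K L = 2 * Nat.card Y ∧ IsWrX K Ω G Y L ∧ dsc L ≤ Z * 1} : ℝ) / Z)
        atTop (𝓝 c)) →
    Good K Ω (wr G) (Y × Bool)

end Pool.Agent.D0H64.MX
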