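import Pool.Agent.D0H64.MX.Stm2

/-!
# Third part of project MX: the range of `X` from the best count of the fields of degree `u`

The starting theorem `MP_bf81c2_nt.LinnikExponent` bounds the number of extensions of degree `u` of any
number field by `C X ^ e(u)`, `e(u) = O((log u) ^ 2)`; with it `8 |B| u (u + 1) ≤ 5 |X|` becomes
`4 |B| u e(u) < 5 |X|`.
-/

set_option autoImplicit false

open NumberField Filter Topology

namespace Pool.Agent.D0H64.MX

open Pool.Agent.TH444.ML

/-- the number of extensions of degree `u` is at most `C Z ^ e` -/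
def Cnte (K Ω : Type) [Field K] [NumberField K] [Field Ω] [Algebra K Ω] (u : ℕ) (e : ℝ) : Prop :=
  ∃ C : ℝ, ∀ Z : ℝ, 1 ≤ Z →
    {F : IntermediateField K Ω | FiniteDimensional K F ∧ Module.finrank K F = u ∧
      dsc F ≤ Z}.Finite ∧
    (Set.ncard {F : IntermediateField K Ω | FiniteDimensional K F ∧ Module.finrank K F = u ∧
      dsc F ≤ Z} : ℝ) ≤ C * Z ^ e

/-- MODULE FEWE (20 min; variant of `Pool.Agent.D0H49.MX.t_FEWN`).  `N ↦ F` = fixed field of `U` is
injective on `Gal`, `dsc F ^ (|H| / u) ≤ dsc N`, so the sum is at most the sum over all `F` of degree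
`u` of `dsc F ^ (-s |H| / u)`, and `s |H| / u > e`: dyadic blocks. -/
def S_FEWE : Prop :=
  ∀ (K Ω : Type) [Field K] [NumberField K] [Field Ω] [Algebra K Ω] [IsAlgClosure K Ω]
    (H : Type) [Group H] [Finite H] (U : Subgroup H), U.normalCore = ⊥ →
    ∀ e s : ℝ, 0 ≤ e → Cnte K Ω U.index e → e * U.index < s * Nat.card H →
    Summable (fun N : Gal K Ω H => (dsc N.1) ^ (-s))

/-- MODULE FEXE (15 min; theorem `t_FEXE : S_NBD → S_FEWE → S_FIB → S_FEXE`; copy of
`Pool.Agent.D0H64.MX.few54` (file Few54.lean) with `s = 5 |X| / (4 |B| |H|)`). -/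
def S_FEXE : Prop :=
  ∀ (K Ω : Type) [Field K] [NumberField K] [Field Ω] [Algebra K Ω] [IsAlgClosure K Ω]
    (H X : Type) [Group H] [MulAction H X] [Finite H] [Finite X] [FaithfulSMul H X]
    (U : Subgroup H), U.normalCore = ⊥ →
    ∀ B : Finset X, B.Nonempty → (∀ h : H, (∀ x ∈ B, h • x = x) → h = 1) →
    ∀ e : ℝ, 0 ≤ e → Cnte K Ω U.index e → 4 * B.card * U.index * e < 5 * Nat.card X →
    Summable (fun M : GalX K Ω H X => (dsc M.1) ^ (-(5 / 4) : ℝ))

/-!
## Fourth part: `K = ℚ`, `H = S_m`, all transitive faithful `X` of size `≥ C m (log m) ^ 3`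
-/

/-- the number of points of `X` moved by `g` -/
noncomputable def mv {G : Type} [Group G] (X : Type) [MulAction G X] (g : G) : ℕ :=
  Nat.card {x : X // g • x ≠ x}

/-- MODULE GEN (40 min; Mathlib only).  A nontrivial permutation `g` of `m` points which moves `s` points
has `t ≤ C (m / s) log m` conjugates which generate a group containing the alternating group.

PROOF.  (1) Let `g x ≠ x`, `c` a 3-cycle `(x, g x, z)` not commuting with `g`; `b = g (c g⁻¹ c⁻¹)` is not `1` and
moves at most 6 points, and is in the group generated by two conjugates of `g`.  Let `b'` be a conjugate of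
`b` whose support meets the support of `b` in exactly one point (`m ≥ 11`): the commutator of `b`, `b'` is a
3-cycle; so a group `T` generated by four conjugates of `g` contains a 3-cycle.
(2) Let `T` contain all 3-cycles with support in a set `A`, `3 ≤ |A| < m`.  For a conjugate `y` of `g` the group
`⟨T, y⟩` contains all 3-cycles with support in `A` and all with support in `y A`; if these two sets have a common point
then also all those with support in `A ∪ y A` (two 3-cycles with one or two common points).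
(3) Choice of `y`: `g` has `r ≥ s / 3` disjoint arcs `i → g i`.  Put `q = min(r, |A| - 1, m - |A|)` tails into
`A` and their heads outside of `A`, and a fixed point of `g` into `A`; if `g` has no fixed point, take
`q = min(r - 1, |A| - 2, m - |A|)` and put a further arc inside `A`.  Then `|A ∪ y A| ≥ |A| + q` and `A ∩ y A` is
not empty.  (4) After `≤ C log m` steps `|A| ≥ s / 3`, then every step adds `≥ s / 6` points or ends with `A` = everything. -/
def S_GEN : Prop :=
  ∃ C : ℕ, ∀ m : ℕ, 11 ≤ m → ∀ g : Equiv.Perm (Fin m), g ≠ 1 →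
    ∃ l : List (Equiv.Perm (Fin m)), l.length * mv (Fin m) g ≤ C * m * Nat.log 2 m ∧
      (∀ h ∈ l, IsConj g h) ∧ alternatingGroup (Fin m) ≤ Subgroup.closure {h | h ∈ l}

/-- MODULE MOV (15 min; theorem `t_MOV : S_GEN → S_MOV`).  No point of `X` is fixed by the alternating group
(it is normal and acts nontrivially), so every point of `X` is moved by one of the conjugates in `l`, and conjugate
elements move the same number of points. -/
def S_MOV : Prop :=
  ∃ C : ℕ, ∀ m : ℕ, 11 ≤ m → ∀ (X : Type) [Finite X] [MulAction (Equiv.Perm (Fin m)) X]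
    [FaithfulSMul (Equiv.Perm (Fin m)) X] [MulAction.IsPretransitive (Equiv.Perm (Fin m)) X]
    (g : Equiv.Perm (Fin m)), g ≠ 1 →
    Nat.card X * mv (Fin m) g ≤ C * m * Nat.log 2 m * mv X g

/-- MODULE ORBM (20 min; theorem `t_ORBM : S_MOV → S_ORBM`).  Let `I ≤ S_m`.  By Burnside's lemma some `g ∈ I` moves at
least `m - #orbits` of the `m` points.  The subgroup generated by `g` has at most `|X| - mv X g / 2` orbits
on `X`, and `I` has not more. -/
def S_ORBM : Prop :=
  ∃ C : ℕ, ∀ m : ℕ, 11 ≤ m → ∀ (X : Type) [Finite X] [MulAction (Equiv.Perm (Fin m)) X]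
    [FaithfulSMul (Equiv.Perm (Fin m)) X] [MulAction.IsPretransitive (Equiv.Perm (Fin m)) X]
    (I : Subgroup (Equiv.Perm (Fin m))),
    Nat.card X * (m - Nat.card (MulAction.orbitRel.Quotient I (Fin m))) ≤
      C * m * Nat.log 2 m * (Nat.card X - Nat.card (MulAction.orbitRel.Quotient I X))

/-- MODULE WILD (25 min; Mathlib only).  The exponent of `p` in the discriminant of a Galois extension of
degree `g` of `ℚ`.

PROOF.  Let `𝔇` be the different, `d` the exponent in it of a prime over `p` (the same for all of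
them, they are conjugate), `e` the ramification index, `j = d / e` (integer part).  Then `p ^ (-j)` is in the dual of
`𝓞 N` for the trace (`𝔇 ∣ p ^ j` locally at `p`: multiply by an integer prime to `p` if necessary), so its trace
`g p ^ (-j)` is an integer up to a factor prime to `p`, `j ≤ v_p(g) < g`, `d < e g`, and
`v_p(disc N) = d f r < g ^ 2`. -/
def S_WILD : Prop :=
  ∀ (N : Type) [Field N] [NumberField N] [IsGalois ℚ N] (p : ℕ), p.Prime →
    padicValNat p (NumberField.discr N).natAbs ≤ Module.finrank ℚ N ^ 2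

/-- MODULE CMPD (35 min; theorem `t_CMPD : S_ORBM → S_WILD → S_CMPD`; imports the theorem for
`Pool.Agent.D0H15.TI.S_IND`, in `Pool/Agent/D0H21/TI/Ind.lean`).  `N/ℚ` Galois with group `S_m`, `F` the fixed
field of a point stabiliser, `M` any field whose group is core-free, `X = Gal(N/ℚ) ⧸ M.fixingSubgroup` (a transitive
faithful set for `Perm (Fin m)` through `r`, with `[M : ℚ]` elements).  For a prime `p > m` (it does not divide
`[N : ℚ] = m!`) `S_IND` gives `I` with `v_p(disc M) = |X| - #orbits on X`, `v_p(disc F) = m - #orbits`, so by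
`S_ORBM` `|X| v_p(disc F) ≤ C m log m v_p(disc M)`.  For `p ≤ m`: `disc F ∣ disc N`, so `v_p(disc F) ≤ (m!) ^ 2` by
`S_WILD`.  `W = (∏_(p ≤ m) p) ^ (m! ^ 3)`. -/
def S_CMPD : Prop :=
  ∃ C : ℕ, ∀ m : ℕ, 11 ≤ m → ∃ W : ℕ, 1 ≤ W ∧ ∀ (N : Type) [Field N] [NumberField N] [IsGalois ℚ N]
    (r : (N ≃ₐ[ℚ] N) ≃* Equiv.Perm (Fin m)) (M F : IntermediateField ℚ N),
    M.fixingSubgroup.normalCore = ⊥ →
    (∃ i : Fin m, F.fixingSubgroup.map r.toMonoidHom = MulAction.stabilizer (Equiv.Perm (Fin m)) i) →
    (NumberField.discr F).natAbs ^ Module.finrank ℚ M ≤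
      W * (NumberField.discr M).natAbs ^ (C * m * Nat.log 2 m)

/-- MODULE FEWS (35 min; theorem `t_FEWS : S_CMPD → S_NBD → S_FIB → S_FEWS`; model: Few54.lean and
`Pool.Agent.D0H49.MX.t_FEWN`).  For `M ∈ GalX` let `N` be the normal closure (in `Gal`, by `S_NBD` with
`B` = everything), `F ≤ N` the fixed field of a point stabiliser: `[F : ℚ] = m`, the normal closure of `F` is `N`, and
`dsc F ^ |X| ≤ W dsc M ^ (C m log m)`.  So `dsc M ^ (-5/4) ≤ W' dsc F ^ (-5 |X| / (4 C m log m))`, the exponent
is `< -e`, every `F` occurs for at most `2 ^ (m!)` fields `M`, and dyadic blocks with `Cnte` finish. -/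
def S_FEWS : Prop :=
  ∃ C : ℕ, ∀ m : ℕ, 11 ≤ m → ∀ (Ω : Type) [Field Ω] [Algebra ℚ Ω] [IsAlgClosure ℚ Ω] (X : Type)
    [Finite X] [Nonempty X] [MulAction (Equiv.Perm (Fin m)) X] [FaithfulSMul (Equiv.Perm (Fin m)) X]
    [MulAction.IsPretransitive (Equiv.Perm (Fin m)) X] (e : ℝ), 0 ≤ e → Cnte ℚ Ω m e →
    4 * C * m * Nat.log 2 m * e < 5 * Nat.card X →
    Summable (fun M : GalX ℚ Ω (Equiv.Perm (Fin m)) X => (dsc M.1) ^ (-(5 / 4) : ℝ))

end Pool.Agent.D0H64.MX
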