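import Pool.Agent.TH444.ML.Defs2

/-!
# Malle's conjecture for `C₂ ≀_X H`, `H` transitive and faithful on any finite set `X`

Statements of the modules of project MX (problem MP_af4c59_nt, slot 3, owner helper64).
The starting theorem `MP_af4c59_nt.WreathOfOrderTwo` is the case `X = H` (regular action, `M/K`
Galois); its files `Pool.Agent.TH444.ML.*` and the modules `J3095 .. J3102` quoted below are the
models to copy.  Here `M/K` is any finite extension whose Galois group (of the normal closure),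
acting on the embeddings of `M`, is `H` acting on `X`.
-/

set_option autoImplicit false

open NumberField Filter Topology

namespace Pool.Agent.D0H64.MX

open Pool.Agent.TH444.ML

/-- degree over `K` of the normal closure of `M` -/
noncomputable def nd {K Ω : Type} [Field K] [Field Ω] [Algebra K Ω]
    (M : IntermediateField K Ω) : ℕ :=
  Module.finrank K (IntermediateField.normalClosure K M Ω)

/-- the wreath product `C₂ ≀_X H` acting on `X × Bool` -/
def Wr2X (H X : Type) [Group H] [MulAction H X] : Set (Equiv.Perm (X × Bool)) :=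
  {π | ∃ h : H, ∀ x : X × Bool, (π x).1 = h • x.1}

/-- `L/K` has Galois group `C₂ ≀_X H` (as a permutation group on the embeddings) -/
def IsWrX (K Ω : Type) [Field K] [Field Ω] [Algebra K Ω] (H X : Type) [Group H] [MulAction H X]
    (L : IntermediateField K Ω) : Prop :=
  ∃ e : (L →ₐ[K] Ω) ≃ X × Bool, ∀ π : Equiv.Perm (X × Bool), π ∈ Wr2X H X ↔
    ∃ σ : Ω ≃ₐ[K] Ω, ∀ φ : L →ₐ[K] Ω, e (σ.toAlgHom.comp φ) = π (e φ)

/-- the finite extensions `M` of `K` in `Ω` whose Galois group, acting on the embeddings of `M`, is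
`H` acting on `X` -/
def GalX (K Ω : Type) [Field K] [Field Ω] [Algebra K Ω] (H X : Type) [Group H] [MulAction H X] :
    Set (IntermediateField K Ω) :=
  {M | FiniteDimensional K M ∧ ∃ e : (M →ₐ[K] Ω) ≃ X,
    (∀ h : H, ∃ σ : Ω ≃ₐ[K] Ω, ∀ φ : M →ₐ[K] Ω, e (σ.toAlgHom.comp φ) = h • e φ) ∧
    ∀ σ : Ω ≃ₐ[K] Ω, ∃ h : H, ∀ φ : M →ₐ[K] Ω, e (σ.toAlgHom.comp φ) = h • e φ}

/-- the subfields `M` of `L` which show that `L/K` has group `C₂ ≀_X H` -/
def MidX (K Ω : Type) [Field K] [Field Ω] [Algebra K Ω] (H X : Type) [Group H] [MulAction H X]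
    (L M : IntermediateField K Ω) : Prop :=
  M ∈ GalX K Ω H X ∧ M ≤ L ∧ FiniteDimensional K L ∧
    Module.finrank K L = 2 * Module.finrank K M ∧ nd L = 2 ^ Module.finrank K M * nd M

/-- MODULE LAB (40 min; model: J3099 (TH365)).  Every embedding of `M` in `Ω` has exactly two
extensions to `L` (`[L : M] = 2`, characteristic 0), so there is `e` with
`(e φ).1 = eM (φ restricted to M)`.  Every `σ` induces a permutation in `Wr2X H X` (as
`M ∈ GalX`).  The permutations induced by the `σ` are `nd L = 2 ^ |X| nd M` in number (the Galois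
group of the normal closure of `L` acts faithfully on the embeddings of `L`), `nd M = |H|` (`H` acts
faithfully on `X`), and `Wr2X H X` has `2 ^ |X| |H|` elements, so the two sets are equal. -/
def S_LAB : Prop :=
  ∀ (K Ω : Type) [Field K] [NumberField K] [Field Ω] [Algebra K Ω] [IsAlgClosure K Ω]
    (H X : Type) [Group H] [MulAction H X] [Finite H] [Finite X] [FaithfulSMul H X]
    (L M : IntermediateField K Ω), MidX K Ω H X L M →
    ∃ e : (L →ₐ[K] Ω) ≃ X × Bool,
      (∀ φ ψ : L →ₐ[K] Ω, (e φ).1 = (e ψ).1 ↔ ∀ y : L, (y : Ω) ∈ M → φ y = ψ y) ∧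
      ∀ π : Equiv.Perm (X × Bool), π ∈ Wr2X H X ↔
        ∃ σ : Ω ≃ₐ[K] Ω, ∀ φ : L →ₐ[K] Ω, e (σ.toAlgHom.comp φ) = π (e φ)

/-- MODULE BLK (40 min; model: J3099).  Let `φ₀` be the inclusion of `L`, `e φ₀ = (x₀, b₀)`,
`φ₁ = e⁻¹ (x₀, !b₀)`, `M = {y ∈ L | φ₁ y = y}`, the fixed field of the stabiliser of the block
`{x₀} × Bool` in the group of all `σ`.  The `σ` act transitively on the embeddings of `L`, so
the embeddings of `M` correspond to the blocks, that is to `X` (by restriction of embeddings), `σ`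
acts on them through the `h` of its permutation, and every `h` occurs.  `nd L` is the number
`2 ^ |X| |H|` of elements of `Wr2X H X` and `nd M = |H|` (faithful action). -/
def S_BLK : Prop :=
  ∀ (K Ω : Type) [Field K] [NumberField K] [Field Ω] [Algebra K Ω] [IsAlgClosure K Ω]
    (H X : Type) [Group H] [MulAction H X] [Finite H] [Finite X] [FaithfulSMul H X]
    (L : IntermediateField K Ω), Module.finrank K L = 2 * Nat.card X → IsWrX K Ω H X L →
    ∃ M, MidX K Ω H X L M

/-- MODULE MIU (20 min; theorem `t_MIU : S_LAB → S_MIU`).  Take `e` of `S_LAB` for `M`, and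
suppose `M' ≠ M`.  The fibres of restriction to `M'` have two elements (`[L : M'] = 2`).  For the
inclusion `φ₀` of `L` let `φ₁` be the other embedding which agrees with it on `M` and `ψ` the other
one which agrees with it on `M'`; `ψ ≠ φ₁` because `M ≠ M'`.  The transposition of `e φ₀`, `e φ₁`
is in `Wr2X H X` (with `h = 1`), so it comes from some `σ`; `σ ψ = ψ`, `σ φ₀ = φ₁`, so
`ψ = φ₁` on `M'` too: three embeddings in one fibre, a contradiction. -/
def S_MIU : Prop :=
  ∀ (K Ω : Type) [Field K] [NumberField K] [Field Ω] [Algebra K Ω] [IsAlgClosure K Ω]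
    (H X : Type) [Group H] [MulAction H X] [Finite H] [Finite X] [FaithfulSMul H X]
    (L M M' : IntermediateField K Ω), MidX K Ω H X L M → MidX K Ω H X L M' → M = M'

/-- MODULE NOTF (40 min; model: J3097 (TH111), 137 lines).  `N` = normal closure of `M`.  The
normal closure of `L` is `N(s_φ)`, `φ` in `M →ₐ[K] Ω`, `s_φ ^ 2 = φ α`.  If no product of the
`φ α` over a nonempty set is a square in `N`, its degree over `N` is `2 ^ [M : K]` (Kummer theory,
exactly as in J3097), so `nd L = 2 ^ [M : K] nd M`. -/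
def S_NOTF : Prop :=
  ∀ (K Ω : Type) [Field K] [NumberField K] [Field Ω] [Algebra K Ω] [IsAlgClosure K Ω]
    (M : IntermediateField K Ω) [FiniteDimensional K M]
    (L : IntermediateField K Ω), M ≤ L → ∀ (α : M) (s : Ω), α ≠ 0 →
    s ^ 2 = (α : Ω) → s ∉ M → L = M ⊔ IntermediateField.adjoin K {s} →
    nd L ≠ 2 ^ Module.finrank K M * nd M →
    ∃ S : Finset (M →ₐ[K] Ω), S.Nonempty ∧
      ∃ t ∈ IntermediateField.normalClosure K M Ω, t ^ 2 = ∏ φ ∈ S, φ α

/-- MODULE SPD (15 min).  If `p` splits completely in `N`, then also in the subfield `M`: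
`e` and `f` are multiplicative in towers, `∑ e f = [N : K]`, every prime of `M` above `p` has a
prime of `N` above it. -/
def S_SPD : Prop :=
  ∀ (K M N : Type) [Field K] [NumberField K] [Field M] [NumberField M] [Field N] [NumberField N]
    [Algebra K M] [Algebra M N] [Algebra K N] [IsScalarTower K M N] (p : Ideal (𝓞 K)),
    p.IsPrime → p ≠ ⊥ → Set.ncard (p.primesOver (𝓞 N)) = Module.finrank K N →
    Set.ncard (p.primesOver (𝓞 M)) = Module.finrank K M

/-- MODULE SSX (15 min; theorem `t_SSX : S_SPD → S_SSX`).  `SplitSum` is proved for Galois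
extensions (`Pool.Agent.TH857.J3095.splitSum`); take for `N` the normal closure of `M` over `K` in
an algebraic closure of `M`; by `S_SPD` there are more split primes for `M`. -/
def S_SSX : Prop :=
  ∀ (K M : Type) [Field K] [NumberField K] [Field M] [NumberField M] [Algebra K M],
    ¬ Summable (fun p : {p : Ideal (𝓞 K) // p.IsPrime ∧ p ≠ ⊥ ∧
      Set.ncard (p.primesOver (𝓞 M)) = Module.finrank K M} => (1 : ℝ) / Ideal.absNorm p.1)

/-- the sieve without the hypothesis that `M/K` is Galois (helper64: the proof of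
`Pool.Agent.TH713.J3096.sieve` uses it only through `SplitSum`) -/
def S_SVX : Prop :=
  ∀ (K M : Type) [Field K] [NumberField K] [Field M] [NumberField M] [Algebra K M],
    Tendsto (fun Z : ℝ =>
      (Set.ncard {𝔡 : Ideal (𝓞 M) | 𝔡 ∈ badId K M ∧ (Ideal.absNorm 𝔡 : ℝ) ≤ Z} : ℝ) / Z)
      atTop (𝓝 0)

/-- MODULE SQB (50 min; model: J3098 (TH9), 183 lines).  `N` = normal closure of `M`, `p` a prime of
`K` with `[M : K]` primes of `M` above it, `𝔓` a prime of `N` above `p`.  The map
`φ ↦ φ⁻¹ 𝔓` from `M →ₐ[K] N` to the primes of `M` above `p` is surjective (the Galois group of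
`N/K` is transitive on the primes above `p`), so it is bijective (both sides have `[M : K]`
elements).  An element `σ` of the decomposition group of `𝔓` does not change `φ⁻¹ 𝔓`, so
`σ φ = φ` for all `φ` and `σ = 1`: `p` splits completely in `N`, and the valuation of `φ α` at
`𝔓` is that of `α` at `φ⁻¹ 𝔓`, which has the parity of the exponent of `φ⁻¹ 𝔓` in `𝔡`.  If exactly
one `P` above `p` divides `𝔡`, choose `φ₀ ∈ S` and `𝔓` with `φ₀⁻¹ 𝔓 = P`: the valuation of the
product over `S` at `𝔓` is odd, a contradiction. -/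
def S_SQB : Prop :=
  ∀ (K Ω : Type) [Field K] [NumberField K] [Field Ω] [Algebra K Ω] [IsAlgClosure K Ω]
    (M : IntermediateField K Ω) [FiniteDimensional K M] [NumberField M] (α : 𝓞 M)
    (𝔡 𝔠 : Ideal (𝓞 M)) (S : Finset (M →ₐ[K] Ω)), α ≠ 0 →
    Squarefree 𝔡 → Ideal.span {α} = 𝔡 * 𝔠 ^ 2 → S.Nonempty →
    (∃ t ∈ IntermediateField.normalClosure K M Ω, t ^ 2 = ∏ φ ∈ S, φ (α : M)) → 𝔡 ∈ badId K M

/-- MODULE BAD (30 min; copy of J3102 (TH521), 256 lines; theorem
`t_BAD : DiscQuad → KumP → S_NOTF → S_SQB → S_SVX → S_BAD`). -/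
def S_BAD : Prop :=
  ∀ (K Ω : Type) [Field K] [NumberField K] [Field Ω] [Algebra K Ω] [IsAlgClosure K Ω]
    (M : IntermediateField K Ω) [FiniteDimensional K M],
    Tendsto (fun Y : ℝ => (Set.ncard {L : IntermediateField K Ω | M ≤ L ∧
      Module.finrank K L = 2 * Module.finrank K M ∧
      nd L ≠ 2 ^ Module.finrank K M * nd M ∧ dsc L ≤ Y * dsc M ^ 2} : ℝ) / Y)
      atTop (𝓝 0)

/-- MODULE CMI (40 min; Mathlib only; model: Mathlib's
`IsDedekindDomain.differentIdeal_dvd_map_differentIdeal` for linearly disjoint fields).  Let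
`E E' = L`, `B = 𝓞 L`.  Then `𝔇(E'/ℚ) B ⊆ 𝔇(L/E)`: let `b_i` be a `ℤ`-basis of `𝓞 E'` and `b'_i`
the dual basis for the trace of `E'/ℚ`.  For `y ∈ L` one has
`y = ∑_i Tr_(L/E)(y b_i) b'_i` (write the trace as the sum over the embeddings `σ` of `L` over `E`
in an algebraic closure; `∑_i σ(b_i) b'_i` is `1` if `σ` is the identity on `E'` and `0` otherwise,
and `σ` is the identity on `L` if it is on `E'`).  So for `d ∈ 𝔇(E'/ℚ)` and `y` in the dual of `B`
over `𝓞 E`: `d y = ∑_i Tr(y b_i) (d b'_i)` is in `B`. -/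
def S_CMI : Prop :=
  ∀ (L E E' : Type) [Field L] [NumberField L] [Field E] [NumberField E] [Field E'] [NumberField E']
    [Algebra E L] [Algebra E' L],
    (∀ F : IntermediateField ℚ L, (∀ x : E, algebraMap E L x ∈ F) →
      (∀ x : E', algebraMap E' L x ∈ F) → F = ⊤) →
    Ideal.map (algebraMap (𝓞 E') (𝓞 L)) (differentIdeal ℤ (𝓞 E')) ≤ differentIdeal (𝓞 E) (𝓞 L)

/-- MODULE CMP (25 min; theorem `t_CMP : S_CMI → S_CMP`).  Norms:
`|d_L| = |d_E| ^ [L : E] N(𝔇(L/E))` (Mathlib:
`NumberField.natAbs_discr_eq_absNorm_differentIdeal_mul_natAbs_discr_pow`) and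
`N(𝔇(E'/ℚ) B) = |d_E'| ^ [L : E']`, for `L = E ⊔ E'` (the exponents are the degrees of
`E ⊔ E'` over `E` and over `E'`, written as quotients of degrees over `K`). -/
def S_CMP : Prop :=
  ∀ (K Ω : Type) [Field K] [NumberField K] [Field Ω] [Algebra K Ω] (E E' : IntermediateField K Ω)
    [FiniteDimensional K E] [FiniteDimensional K E'],
    dsc (E ⊔ E') ≤
      dsc E ^ (Module.finrank K (E ⊔ E' : IntermediateField K Ω) / Module.finrank K E) *
      dsc E' ^ (Module.finrank K (E ⊔ E' : IntermediateField K Ω) / Module.finrank K E')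

/-- MODULE NBD (40 min; theorem `t_NBD : S_CMP → S_NBD`).  Let `N` be the normal closure of
`M ∈ GalX`; its Galois group is `H` (`H` acts faithfully on `X`).  For `x ∈ X` let `M_x ⊆ N` be the
image of the embedding with label `x`; it is isomorphic to `M`, so `dsc M_x = dsc M`.  The fields
`M_x`, `x ∈ B`, generate `N` because an element of `H` fixing `B` is `1`.  By `S_CMP` and induction,
with `c = |d| ^ (1 / degree over K)`: `c(N) ≤ c(M) ^ |B|`, that is
`dsc N ≤ dsc M ^ (|B| [N : M])`, `[N : M] = |H| / |X|`. -/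
def S_NBD : Prop :=
  ∀ (K Ω : Type) [Field K] [NumberField K] [Field Ω] [Algebra K Ω] [IsAlgClosure K Ω]
    (H X : Type) [Group H] [MulAction H X] [Finite H] [Finite X] [FaithfulSMul H X]
    (B : Finset X), B.Nonempty → (∀ h : H, (∀ x ∈ B, h • x = x) → h = 1) →
    ∀ M ∈ GalX K Ω H X, IntermediateField.normalClosure K M Ω ∈ Gal K Ω H ∧
      dsc (IntermediateField.normalClosure K M Ω) ≤
        dsc M ^ (B.card * (Nat.card H / Nat.card X))

/-- MODULE FEWN (25 min; copy of J3101 (TH228) without the condition on `|H|`; theorem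
`t_FEWN : HermiteRel → S_FEWN`).  For `N ∈ Gal` let `F` be the fixed field of `U`:
`[F : K] = u`, `dsc F ^ (|H| / u) ≤ dsc N`, and `N` is the normal closure of `F`; so the sum is at
most the sum over all `F` of degree `u` of `dsc F ^ (-(2 u + 2))`, finite by `HermiteRel`. -/
def S_FEWN : Prop :=
  ∀ (K Ω : Type) [Field K] [NumberField K] [Field Ω] [Algebra K Ω] [IsAlgClosure K Ω]
    (H : Type) [Group H] [Finite H] (U : Subgroup H), U.normalCore = ⊥ →
    Summable (fun N : Gal K Ω H =>
      (dsc N.1) ^ (-(2 * U.index * (U.index + 1) / Nat.card H : ℝ)))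

/-- MODULE FIB (20 min).  A finite Galois extension `N` has at most `2 ^ |Gal(N/K)|` subfields. -/
def S_FIB : Prop :=
  ∀ (K Ω : Type) [Field K] [NumberField K] [Field Ω] [Algebra K Ω] [IsAlgClosure K Ω]
    (H : Type) [Group H] [Finite H], ∀ N ∈ Gal K Ω H,
    {M : IntermediateField K Ω | M ≤ N}.Finite ∧
      Set.ncard {M : IntermediateField K Ω | M ≤ N} ≤ 2 ^ Nat.card H

/-- MODULE FEWX (25 min; theorem `t_FEWX : S_NBD → S_FEWN → S_FIB → S_FEWX`).  With
`N(M)` the normal closure: `dsc M ^ (-1/4) ≤ dsc N(M) ^ (-|X| / (4 |B| |H|))` and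
`|X| / (4 |B| |H|) ≥ 2 u (u + 1) / |H|`; each `N` is `N(M)` for at most `2 ^ |H|` fields `M`. -/
def S_FEWX : Prop :=
  ∀ (K Ω : Type) [Field K] [NumberField K] [Field Ω] [Algebra K Ω] [IsAlgClosure K Ω]
    (H X : Type) [Group H] [MulAction H X] [Finite H] [Finite X] [FaithfulSMul H X]
    (U : Subgroup H), U.normalCore = ⊥ →
    ∀ B : Finset X, B.Nonempty → (∀ h : H, (∀ x ∈ B, h • x = x) → h = 1) →
    8 * B.card * U.index * (U.index + 1) ≤ Nat.card X →
    Summable (fun M : GalX K Ω H X => (dsc M.1) ^ (-(1 / 4) : ℝ))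

/-- MODULE REAX (25 min).  Let `N ∈ Gal`, `x₀ ∈ X`; `M` = the fixed field in `N` of the stabiliser
of `x₀`; the embeddings of `M` are the `g|_M`, `g ∈ H`, and `g|_M = g'|_M` iff `g x₀ = g' x₀`. -/
def S_REAX : Prop :=
  ∀ (K Ω : Type) [Field K] [NumberField K] [Field Ω] [Algebra K Ω] [IsAlgClosure K Ω]
    (H X : Type) [Group H] [MulAction H X] [Finite H] [Finite X] [Nonempty X]
    [FaithfulSMul H X] [MulAction.IsPretransitive H X],
    (Gal K Ω H).Nonempty → (GalX K Ω H X).Nonempty

/-- MODULE BAS (15 min; Mathlib only).  Choose points one after the other, each not fixed by the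
pointwise stabiliser of the former ones, which is at least halved every time. -/
def S_BAS : Prop :=
  ∀ (H X : Type) [Group H] [MulAction H X] [Finite H] [Finite X] [Nontrivial H]
    [FaithfulSMul H X], ∃ B : Finset X, B.Nonempty ∧
      (∀ h : H, (∀ x ∈ B, h • x = x) → h = 1) ∧ 2 ^ B.card ≤ Nat.card H

/-- The final analytic statement (helper64: copy of Main.lean). -/
def S_MAIN : Prop :=
  ∀ (K Ω : Type) [Field K] [NumberField K] [Field Ω] [Algebra K Ω] [IsAlgClosure K Ω]
    (H X : Type) [Group H] [MulAction H X] [Finite H] [Finite X] [FaithfulSMul H X]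
    (U : Subgroup H), U.normalCore = ⊥ →
    ∀ B : Finset X, B.Nonempty → (∀ h : H, (∀ x ∈ B, h • x = x) → h = 1) →
    8 * B.card * U.index * (U.index + 1) ≤ Nat.card X →
    (GalX K Ω H X).Nonempty → ∀ D : ℝ, 0 < D →
    (∀ Z : ℝ, 0 < Z → {L : IntermediateField K Ω | Module.finrank K L = 2 * Nat.card X ∧
      IsWrX K Ω H X L ∧ dsc L ≤ Z * D}.Finite) ∧ ∃ c : ℝ, 0 < c ∧
      Tendsto (fun Z : ℝ => (Set.ncard {L : IntermediateField K Ω |
        Module.finrank K L = 2 * Nat.card X ∧ IsWrX K Ω H X L ∧ dsc L ≤ Z * D} : ℝ) / Z)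
        atTop (𝓝 c)

end Pool.Agent.D0H64.MX
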