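import Pool.Agent.D0H64.MX.Twr
import Pool.Agent.D0H64.MX.Few54
import Pool.Agent.D0H64.MX.Sv
import Pool.Agent.TH444.ML.Done
import Pool.Agent.N600.UK.Sym
import Pool.Agent.D0H13.MX.Bad
import Pool.Agent.D0H13.MX.Sqb
import Pool.Agent.D0H13.MX.Ide
import Pool.Agent.D0H13.MX.Box
import Pool.Agent.D0H18.MX.Cmp
import Pool.Agent.D0H20.MX.Reax
import Pool.Agent.D0H35.MX.Cmi
import Pool.Agent.D0H35.MX.Nbd
import Pool.Agent.D0H49.MX.Fewn
import Pool.Agent.D0H52.MX.Lab
import Pool.Agent.D0H52.MX.Miu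
import Pool.Agent.D0H52.MX.Itr
import Pool.Agent.D0H63.MX.Blk
import Pool.Agent.D0H63.MX.Notf
import Pool.Agent.D0H70.MX.Fib
import Pool.Agent.D0H70.MX.Spd
import Pool.Agent.D0H70.MX.Ssx
import Pool.Agent.D0H74.MX.Idu
import Pool.Agent.D0H85.MX.Bas
import Pool.Agent.D0H98.MX.Qu2

/-!
# The asymptotic formula for `C₂ ≀ ⋯ ≀ C₂ ≀_X H`
-/

set_option autoImplicit false
set_option linter.unusedSectionVars false

open NumberField Filter Topology

namespace Pool.Agent.D0H64.MX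

open Pool.Agent.TH444.ML

theorem lab : S_LAB := Pool.Agent.D0H52.MX.t_LAB
theorem blk : S_BLK := Pool.Agent.D0H63.MX.t_BLK
theorem miu : S_MIU := Pool.Agent.D0H52.MX.t_MIU lab
theorem svx : S_SVX := t_SVX (Pool.Agent.D0H70.MX.t_SSX Pool.Agent.D0H70.MX.t_SPD)
theorem bad : S_BAD :=
  Pool.Agent.D0H13.MX.t_BAD Pool.Agent.TH263.J3086.discQuad Pool.Agent.TH914.J3087.kumP
    Pool.Agent.D0H63.MX.t_NOTF Pool.Agent.D0H13.MX.t_SQB svx
theorem cmp : S_CMP := Pool.Agent.D0H18.MX.t_CMP Pool.Agent.D0H35.MX.t_CMI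
theorem nbd : S_NBD := Pool.Agent.D0H35.MX.t_NBD cmp
theorem fewn : S_FEWN := Pool.Agent.D0H49.MX.t_FEWN Pool.Agent.TH979.J3100.hermiteRel
theorem idu : S_IDU :=
  Pool.Agent.D0H74.MX.t_IDU Pool.Agent.D0H13.MX.t_IDE Pool.Agent.D0H13.MX.t_BOX
theorem qu2 : S_QU2 :=
  Pool.Agent.D0H98.MX.t_QU2 Pool.Agent.TH263.J3086.discQuad Pool.Agent.TH914.J3087.kumP
    Pool.Agent.D0H13.MX.t_IDE idu

theorem mg : S_MG := by
  intro K Ω _ _ _ _ _ H X _ _ _ _ _ hg D hD
  exact main_good (quadLim rest) quadPos quadUnif qu2 bad lab blk miu K Ω H X hg D hD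

/-- the good pairs -/
theorem good_of (K : Type) [Field K] [NumberField K] (H X : Type) [Group H] [MulAction H X]
    [Finite H] [Finite X] [FaithfulSMul H X] [MulAction.IsPretransitive H X]
    (hne : (Gal K (AlgebraicClosure K) H).Nonempty) (U : Subgroup H) (hU : U.normalCore = ⊥)
    (B : Finset X) (hB : B.Nonempty) (hBf : ∀ h : H, (∀ x ∈ B, h • x = x) → h = 1)
    (hcard : 8 * B.card * U.index * (U.index + 1) ≤ 5 * Nat.card X) :
    Good K (AlgebraicClosure K) H X := by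
  have : Nonempty X := ⟨hB.choose⟩
  exact ⟨Pool.Agent.D0H20.MX.t_REAX K (AlgebraicClosure K) H X hne,
    few54 nbd fewn Pool.Agent.D0H70.MX.t_FIB K (AlgebraicClosure K) H X U hU B hB hBf hcard⟩

theorem good_log (K : Type) [Field K] [NumberField K] (H X : Type) [Group H] [MulAction H X]
    [Finite H] [Finite X] [FaithfulSMul H X] [MulAction.IsPretransitive H X] [Nontrivial H]
    (hne : (Gal K (AlgebraicClosure K) H).Nonempty) (U : Subgroup H) (hU : U.normalCore = ⊥)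
    (hcard : 8 * Nat.log 2 (Nat.card H) * U.index * (U.index + 1) ≤ 5 * Nat.card X) :
    Good K (AlgebraicClosure K) H X := by
  obtain ⟨B, hB, hBf, hBc⟩ := Pool.Agent.D0H85.MX.t_BAS H X
  refine good_of K H X hne U hU B hB hBf (le_trans ?_ hcard)
  have h1 : B.card ≤ Nat.log 2 (Nat.card H) := Nat.le_log_of_pow_le (by norm_num) hBc
  gcongr

open Pool.Agent.TH444.TW (Cls RegularOver)
open Pool.Agent.H391R2 (Wr)

/-- the symmetric groups are Galois groups over all number fields -/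
theorem gal_perm (K : Type) [Field K] [NumberField K] (m : ℕ) :
    (Gal K (AlgebraicClosure K) (Equiv.Perm (Fin m))).Nonempty := by
  have : Subsingleton (K ≃ₐ[K] K) := ⟨fun σ τ => by
    ext x
    exact (σ.commutes x).trans (τ.commutes x).symm⟩
  have hc : Cls K (1 : Equiv.Perm (Fin m) →* (K ≃ₐ[K] K)) := by
    refine Cls.inner _ (Equiv.Perm (Fin m)) (Pool.Agent.N600.UK.regularOver_perm K m) ?_
    refine ⟨1, 1, Pi.evalMonoidHom _ 0, 1, ?_, ?_, ?_, ?_⟩
    · intro x y hxy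
      funext i
      rw [Subsingleton.elim i 0]
      exact hxy
    · rw [MonoidHom.ker_one]
      rw [MonoidHom.range_eq_top]
      intro x
      exact ⟨fun _ => x, rfl⟩
    · intro w
      exact Subsingleton.elim _ _
    · intro w x
      simp only [MonoidHom.one_apply, one_mul, mul_one]
      simp
  exact gal_nonempty K (AlgebraicClosure K) K (Equiv.Perm (Fin m)) 1 hc

/-- a point stabiliser of a faithful transitive action -/
theorem core_stab {H Y : Type} [Group H] [MulAction H Y] [Finite Y] [FaithfulSMul H Y]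
    [MulAction.IsPretransitive H Y] (y : Y) :
    (MulAction.stabilizer H y).normalCore = ⊥ ∧ (MulAction.stabilizer H y).index = Nat.card Y := by
  refine ⟨?_, ?_⟩
  · rw [eq_bot_iff]
    intro h hh
    rw [Subgroup.mem_bot]
    apply FaithfulSMul.eq_of_smul_eq_smul (α := Y)
    intro z
    obtain ⟨g, rfl⟩ := MulAction.exists_smul_eq H y z
    have h1 : g⁻¹ * h * g ∈ MulAction.stabilizer H y := by
      have := hh g⁻¹
      simpa using this
    rw [MulAction.mem_stabilizer_iff, mul_smul, mul_smul, inv_smul_eq_iff] at h1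
    rw [h1, one_smul]
  · rw [MulAction.index_stabilizer, MulAction.orbit_eq_univ, Set.ncard_univ]

theorem good_perm (K : Type) [Field K] [NumberField K] (m : ℕ) (hm : 2 ≤ m) (X : Type) [Finite X]
    [MulAction (Equiv.Perm (Fin m)) X] [FaithfulSMul (Equiv.Perm (Fin m)) X]
    [MulAction.IsPretransitive (Equiv.Perm (Fin m)) X]
    (hcard : 8 * Nat.log 2 m.factorial * m * (m + 1) ≤ 5 * Nat.card X) :
    Good K (AlgebraicClosure K) (Equiv.Perm (Fin m)) X := by
  have : Nontrivial (Fin m) := Fin.nontrivial_iff_two_le.2 hm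
  have hnt : Nontrivial (Equiv.Perm (Fin m)) := inferInstance
  obtain ⟨h1, h2⟩ := core_stab (H := Equiv.Perm (Fin m)) (⟨0, by omega⟩ : Fin m)
  refine good_log K _ X (gal_perm K m) _ h1 ?_
  rw [h2, Nat.card_perm, Nat.card_fin]
  exact hcard

theorem wr_num (a m X : ℕ) (ha : 1 ≤ a) (hm : 1 ≤ m)
    (h : 4 * (a * m) ^ 2 * m * (Nat.log 2 (a * m) + 1) ≤ X) :
    8 * Nat.log 2 (a ^ m * m.factorial) * (a * m) * (a * m + 1) ≤ 5 * X := by
  obtain ⟨u, hu⟩ : ∃ u, u = a * m := ⟨_, rfl⟩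
  rw [← hu] at h ⊢
  have hu1 : 1 ≤ u := by rw [hu]; exact Nat.one_le_iff_ne_zero.2 (by positivity)
  have h1 : Nat.log 2 (a ^ m * m.factorial) ≤ m * (Nat.log 2 u + 1) := by
    have e1 : a ^ m * m.factorial ≤ u ^ m := by
      rw [hu, mul_pow]
      exact Nat.mul_le_mul_left _ (Nat.factorial_le_pow m)
    have e2 : u ^ m < 2 ^ (m * (Nat.log 2 u + 1)) := by
      rw [mul_comm m, pow_mul]
      exact Nat.pow_lt_pow_left (Nat.lt_pow_succ_log_self (by norm_num) u) (by omega)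
    exact (Nat.log_lt_of_lt_pow (by positivity) (lt_of_le_of_lt e1 e2)).le
  have h2 : u * (u + 1) ≤ 2 * u ^ 2 := by nlinarith
  calc 8 * Nat.log 2 (a ^ m * m.factorial) * u * (u + 1)
      = 8 * Nat.log 2 (a ^ m * m.factorial) * (u * (u + 1)) := by ring
    _ ≤ 8 * (m * (Nat.log 2 u + 1)) * (2 * u ^ 2) :=
        Nat.mul_le_mul (Nat.mul_le_mul_left _ h1) h2
    _ = 4 * (4 * u ^ 2 * m * (Nat.log 2 u + 1)) := by ring
    _ ≤ 4 * X := Nat.mul_le_mul_left _ h
    _ ≤ 5 * X := by omega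

theorem good_wr (K : Type) [Field K] [NumberField K] (A : Type) [Group A] [Finite A] (m : ℕ)
    (hm : ((3 * Nat.card A + 2).factorial) ^ 3 ≤ m) (X : Type) [Finite X]
    [MulAction (Wr A m) X] [FaithfulSMul (Wr A m) X] [MulAction.IsPretransitive (Wr A m) X]
    (hcard : 4 * (Nat.card A * m) ^ 2 * m * (Nat.log 2 (Nat.card A * m) + 1) ≤ Nat.card X) :
    Good K (AlgebraicClosure K) (Wr A m) X := by
  obtain ⟨h2, -, hne⟩ := wr_data K A m hm
  have hnt : Nontrivial (Wr A m) := Finite.one_lt_card_iff_nontrivial.1 h2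
  have hA : 1 ≤ Nat.card A := Nat.card_pos
  have hm1 : 1 ≤ m := le_trans (Nat.one_le_iff_ne_zero.2 (by positivity)) hm
  obtain ⟨U, h3, h4⟩ := wr_core A m (by omega)
  refine good_log K _ X hne U h3 ?_
  rw [h4, wr_card]
  exact wr_num _ m _ hA hm1 hcard

end Pool.Agent.D0H64.MX
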