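import Pool.Agent.D0H64.MX.Lin
import Pool.Agent.D0H49.MX.Fewe
import Pool.Agent.D0H49.MX.Fexe

/-!
# The good pairs
-/

set_option autoImplicit false
set_option linter.unusedSectionVars false

open NumberField Filter Topology

namespace Pool.Agent.D0H64.MX

open Pool.Agent.TH444.ML
open Pool.Agent.H391R2 (Wr)

theorem fexe : S_FEXE :=
  Pool.Agent.D0H49.MX.t_FEXE nbd Pool.Agent.D0H49.MX.t_FEWE Pool.Agent.D0H70.MX.t_FIB

/-- `b f ≤ |X|`, where `b = log₂ |H|` (rounded down) or `b` is the size of a nonempty base of `X` -/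
def Large (H X : Type) [Group H] [MulAction H X] (f : ℝ) : Prop :=
  (Nontrivial H ∧ (Nat.log 2 (Nat.card H) : ℝ) * f ≤ Nat.card X) ∨
    ∃ B : Finset X, B.Nonempty ∧ (∀ h : H, (∀ x ∈ B, h • x = x) → h = 1) ∧
      (B.card : ℝ) * f ≤ Nat.card X

theorem good_large1 (K : Type) [Field K] [NumberField K] (H X : Type) [Group H] [MulAction H X]
    [Finite H] [Finite X] [FaithfulSMul H X] [MulAction.IsPretransitive H X]
    (hne : (Gal K (AlgebraicClosure K) H).Nonempty) (U : Subgroup H) (hU : U.normalCore = ⊥)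
    (hL : Large H X (8 / 5 * U.index * (U.index + 1))) : Good K (AlgebraicClosure K) H X := by
  rcases hL with ⟨hnt, hc⟩ | ⟨B, hB, hBf, hc⟩
  · refine good_log K H X hne U hU ?_
    have h1 : (8 : ℝ) * Nat.log 2 (Nat.card H) * U.index * (U.index + 1) ≤ 5 * Nat.card X := by
      linarith
    exact_mod_cast h1
  · refine good_of K H X hne U hU B hB hBf ?_
    have h1 : (8 : ℝ) * B.card * U.index * (U.index + 1) ≤ 5 * Nat.card X := by
      linarith
    exact_mod_cast h1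

theorem good_large2 : ∃ u₀ : ℕ, ∀ (K : Type) [Field K] [NumberField K] (H X : Type)
    [Group H] [MulAction H X] [Finite H] [Finite X] [FaithfulSMul H X]
    [MulAction.IsPretransitive H X], (Gal K (AlgebraicClosure K) H).Nonempty →
    ∀ U : Subgroup H, U.normalCore = ⊥ → u₀ ≤ U.index →
    Large H X (1 / 4 * U.index * (Real.log U.index) ^ 2) →
    Good K (AlgebraicClosure K) H X := by
  obtain ⟨u₁, h1⟩ := good_lin fexe
  obtain ⟨u₂, h2⟩ := good_lin_log fexe
  refine ⟨max u₁ u₂, fun K _ _ H X _ _ _ _ _ _ hne U hU hU0 hL => ?_⟩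
  rcases hL with ⟨hnt, hc⟩ | ⟨B, hB, hBf, hc⟩
  · refine h2 K H X hne U hU (le_trans (le_max_right _ _) hU0) ?_
    linarith
  · refine h1 K H X hne U hU (le_trans (le_max_left _ _) hU0) B hB hBf ?_
    linarith

/-- the groups `S_m` -/
theorem good_sym : ∃ u₀ : ℕ, ∀ (K : Type) [Field K] [NumberField K] (m : ℕ), 2 ≤ m →
    ∀ (X : Type) [Finite X] [MulAction (Equiv.Perm (Fin m)) X]
    [FaithfulSMul (Equiv.Perm (Fin m)) X] [MulAction.IsPretransitive (Equiv.Perm (Fin m)) X],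
    (8 / 5 * Nat.log 2 m.factorial * m * (m + 1) ≤ (Nat.card X : ℝ) ∨
      (u₀ ≤ m ∧ 1 / 4 * Nat.log 2 m.factorial * m * (Real.log m) ^ 2 ≤ (Nat.card X : ℝ))) →
    Good K (AlgebraicClosure K) (Equiv.Perm (Fin m)) X := by
  obtain ⟨u₀, h0⟩ := good_large2
  refine ⟨u₀, fun K _ _ m hm X _ _ _ _ hc => ?_⟩
  have hn2 : Nontrivial (Fin m) := Fin.nontrivial_iff_two_le.2 hm
  have hnt : Nontrivial (Equiv.Perm (Fin m)) := inferInstance
  obtain ⟨h1, h2⟩ := core_stab (H := Equiv.Perm (Fin m)) (⟨0, by omega⟩ : Fin m)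
  rw [Nat.card_fin] at h2
  have hcd : Nat.card (Equiv.Perm (Fin m)) = m.factorial := by
    rw [Nat.card_perm, Nat.card_fin]
  rcases hc with hc | ⟨hm0, hc⟩
  · refine good_large1 K _ X (gal_perm K m) _ h1 (Or.inl ⟨hnt, ?_⟩)
    rw [h2, hcd]
    linarith
  · refine h0 K _ X (gal_perm K m) _ h1 (by rw [h2]; exact hm0) (Or.inl ⟨hnt, ?_⟩)
    rw [h2, hcd]
    linarith

/-- the groups `A ≀ S_m` -/
theorem good_wreath : ∃ u₀ : ℕ, ∀ (K : Type) [Field K] [NumberField K] (A : Type) [Group A]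
    [Finite A] (m : ℕ), ((3 * Nat.card A + 2).factorial) ^ 3 ≤ m → u₀ ≤ m →
    ∀ (X : Type) [Finite X] [MulAction (Wr A m) X]
    [FaithfulSMul (Wr A m) X] [MulAction.IsPretransitive (Wr A m) X],
    1 / 4 * Nat.log 2 (Nat.card A ^ m * m.factorial) * (Nat.card A * m) *
      (Real.log (Nat.card A * m)) ^ 2 ≤ (Nat.card X : ℝ) →
    Good K (AlgebraicClosure K) (Wr A m) X := by
  obtain ⟨u₀, h0⟩ := good_large2
  refine ⟨max u₀ 1, fun K _ _ A _ _ m hm hm0 X _ _ _ _ hc => ?_⟩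
  obtain ⟨h2, -, hne⟩ := wr_data K A m hm
  have hnt : Nontrivial (Wr A m) := Finite.one_lt_card_iff_nontrivial.1 h2
  have hA : 1 ≤ Nat.card A := Nat.card_pos
  have hm1 : 1 ≤ m := le_trans (le_max_right _ _) hm0
  have hmu : u₀ ≤ m := le_trans (le_max_left _ _) hm0
  obtain ⟨U, h3, h4⟩ := wr_core A m (by omega)
  have h5 : u₀ ≤ U.index := by
    rw [h4]
    calc u₀ ≤ m := hmu
      _ = 1 * m := (one_mul m).symm
      _ ≤ Nat.card A * m := Nat.mul_le_mul_right _ hA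
  refine h0 K _ X hne U h3 h5 (Or.inl ⟨hnt, ?_⟩)
  rw [h4, wr_card]
  push_cast
  linarith

end Pool.Agent.D0H64.MX
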