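import Pool.Agent.D0H64.MX.Twr

/-!
# The elements of minimal index form one conjugacy class
-/

set_option autoImplicit false
set_option linter.unusedSectionVars false

namespace Pool.Agent.D0H64.MX

open Pool.Agent.TH444.ML

theorem swap_block {H X : Type} [Group H] [MulAction H X] {n : ℕ}
    {G : Subgroup (Equiv.Perm (Fin n))} {f : Fin n ≃ X × Bool}
    (hf : ∀ π : Equiv.Perm (Fin n), π ∈ G ↔ ∃ h : H, ∀ i, (f (π i)).1 = h • (f i).1)
    {a b : Fin n} (hg : Equiv.swap a b ∈ G) : (f a).1 = (f b).1 := by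
  by_contra hne
  obtain ⟨h, hh⟩ := (hf _).1 hg
  set a' : Fin n := f.symm ((f a).1, !(f a).2) with ha'
  have h1 : f a' = ((f a).1, !(f a).2) := by rw [ha', Equiv.apply_symm_apply]
  have h2 : a' ≠ a := by
    intro h3
    have h4 : f a' = f a := congrArg f h3
    rw [h1] at h4
    have h5 := congrArg Prod.snd h4
    simp at h5
  have h3 : a' ≠ b := by
    intro h3
    apply hne
    rw [← h3, h1]
  have h4 := hh a'
  rw [Equiv.swap_apply_of_ne_of_ne h2 h3, h1] at h4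
  have h5 := hh a
  rw [Equiv.swap_apply_left] at h5
  have h6 : (f a).1 = h • (f a).1 := h4
  exact hne (h6.trans h5.symm)

theorem conj_c2 {H X : Type} [Group H] [MulAction H X] [MulAction.IsPretransitive H X] {n : ℕ}
    {G : Subgroup (Equiv.Perm (Fin n))} (hG : IsC2WrX H X G) (g g' : G) (hg : ind g.1 = 1)
    (hg' : ind g'.1 = 1) : IsConj g g' := by
  obtain ⟨f, hf⟩ := hG
  obtain ⟨a, b, hab, h1⟩ := swap_of_ind g.1 hg
  obtain ⟨a', b', hab', h1'⟩ := swap_of_ind g'.1 hg'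
  have hb := swap_block hf (h1 ▸ g.2 : Equiv.swap a b ∈ G)
  have hb' := swap_block hf (h1' ▸ g'.2 : Equiv.swap a' b' ∈ G)
  obtain ⟨c, hc⟩ := MulAction.exists_smul_eq H (f a).1 (f a').1
  let t : Equiv.Perm (X × Bool) := (MulAction.toPerm c).prodCongr (Equiv.refl Bool)
  let T : Equiv.Perm (Fin n) := f.trans (t.trans f.symm)
  have hTf : ∀ i, f (T i) = (c • (f i).1, (f i).2) := by
    intro i
    simp [T, t, Prod.map]
  have hT : T ∈ G := by
    rw [hf]
    exact ⟨c, fun i => by rw [hTf]⟩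
  have hTa : (f (T a)).1 = (f a').1 := by rw [hTf]; exact hc
  have hTb : (f (T b)).1 = (f a').1 := by
    rw [hTf]
    show c • (f b).1 = (f a').1
    rw [← hb]; exact hc
  have hTab : T a ≠ T b := fun h => hab (T.injective h)
  rw [isConj_iff]
  refine ⟨⟨T, hT⟩, ?_⟩
  apply Subtype.ext
  show T * g.1 * T⁻¹ = g'.1
  rw [h1, h1', ← Equiv.swap_apply_apply]
  have key : ∀ x y z w : X × Bool, x.1 = z.1 → y.1 = z.1 → w.1 = z.1 → x ≠ y → z ≠ w →
      (x = z ∧ y = w) ∨ (x = w ∧ y = z) := by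
    rintro ⟨x, bx⟩ ⟨y, by'⟩ ⟨z, bz⟩ ⟨w, bw⟩ h1 h2 h3 h4 h5
    simp only at h1 h2 h3
    subst h1 h2 h3
    simp only [ne_eq, Prod.mk.injEq, true_and] at h4 h5 ⊢
    cases bx <;> cases by' <;> cases bz <;> cases bw <;> simp_all
  rcases key (f (T a)) (f (T b)) (f a') (f b') hTa hTb hb'.symm
    (fun h => hTab (f.injective h)) (fun h => hab' (f.injective h)) with h | h
  · rw [f.injective h.1, f.injective h.2]
  · rw [f.injective h.1, f.injective h.2, Equiv.swap_comm]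

theorem wr_trans {Y : Type} (G : Subgroup (Equiv.Perm Y)) (h : ∀ y z : Y, ∃ g ∈ G, g y = z) :
    ∀ y z : Y × Bool, ∃ g ∈ wr G, g y = z := by
  rintro ⟨y, b⟩ ⟨z, c⟩
  obtain ⟨g, hg, hgy⟩ := h y z
  let s : Equiv.Perm Bool := Equiv.swap b c
  refine ⟨g.prodCongr s, ⟨g, hg, fun x => rfl⟩, ?_⟩
  show (g y, s b) = (z, c)
  rw [hgy]
  simp [s]

theorem gp_trans (H X : Type) [Group H] [MulAction H X] [MulAction.IsPretransitive H X] :
    ∀ (k : ℕ) (y z : Pt X k), ∃ g ∈ Gp H X k, g y = z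
  | 0, y, z => by
    obtain ⟨c, hc⟩ := MulAction.exists_smul_eq H (α := X) y z
    exact ⟨MulAction.toPermHom H X c, ⟨c, rfl⟩, hc⟩
  | k + 1, y, z => wr_trans (Gp H X k) (gp_trans H X k) y z

theorem conj_tower {H X : Type} [Group H] [MulAction H X] [MulAction.IsPretransitive H X]
    {k n : ℕ} {G : Subgroup (Equiv.Perm (Fin n))} (hG : IsTower H X (k + 1) G) (g g' : G)
    (hg : ind g.1 = 1) (hg' : ind g'.1 = 1) : IsConj g g' := by
  have : MulAction.IsPretransitive (Gp H X k) (Pt X k) := by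
    refine ⟨fun y z => ?_⟩
    obtain ⟨c, hc, h⟩ := gp_trans H X k y z
    exact ⟨⟨c, hc⟩, h⟩
  exact conj_c2 (isC2 hG) g g' hg hg'

end Pool.Agent.D0H64.MX
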