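import Pool.Agent.D0H64.MX.Main
import Pool.Agent.TH444.ML.Perm

/-!
# Permutation groups on `Fin n`
-/

set_option autoImplicit false
set_option linter.unusedSectionVars false

open NumberField Filter Topology

namespace Pool.Agent.D0H64.MX

open Pool.Agent.TH444.ML

/-- `G ≤ S_n` is, up to a bijection of `{1, ..., n}` with `X × {0, 1}`, the wreath product
`C₂ ≀_X H`. -/
def IsC2WrX (H X : Type) [Group H] [MulAction H X] {n : ℕ} (G : Subgroup (Equiv.Perm (Fin n))) :
    Prop :=
  ∃ f : Fin n ≃ X × Bool, ∀ π : Equiv.Perm (Fin n), π ∈ G ↔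
    ∃ h : H, ∀ i, (f (π i)).1 = h • (f i).1

theorem c2wr_n {H X : Type} [Group H] [MulAction H X] [Finite X] {n : ℕ}
    {G : Subgroup (Equiv.Perm (Fin n))} (hG : IsC2WrX H X G) : n = 2 * Nat.card X := by
  obtain ⟨f, -⟩ := hG
  have := Nat.card_congr f
  rw [Nat.card_prod] at this
  simpa [mul_comm] using this

theorem hasGp_iff (K : Type) [Field K] {H X : Type} [Group H] [MulAction H X] {n : ℕ}
    {G : Subgroup (Equiv.Perm (Fin n))} (hG : IsC2WrX H X G)
    (L : IntermediateField K (AlgebraicClosure K)) :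
    HasGp K G L ↔ IsWrX K (AlgebraicClosure K) H X L := by
  obtain ⟨f, hf⟩ := hG
  constructor
  · rintro ⟨e, he⟩
    refine ⟨e.trans f, fun π => ?_⟩
    have h1 := hf (f.trans (π.trans f.symm))
    have h2 := he (f.trans (π.trans f.symm))
    have h3 : π ∈ Wr2X H X ↔ f.trans (π.trans f.symm) ∈ G := by
      rw [h1]
      constructor
      · rintro ⟨h, hh⟩
        exact ⟨h, fun i => by simpa using hh (f i)⟩
      · rintro ⟨h, hh⟩
        refine ⟨h, fun x => ?_⟩
        have := hh (f.symm x)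
        simpa using this
    rw [h3, h2]
    constructor
    · rintro ⟨σ, hσ⟩
      refine ⟨σ, fun φ => ?_⟩
      have := hσ φ
      simp only [Equiv.trans_apply] at this ⊢
      rw [this]
      simp
    · rintro ⟨σ, hσ⟩
      refine ⟨σ, fun φ => ?_⟩
      have := hσ φ
      simp only [Equiv.trans_apply] at this ⊢
      rw [← this]
      simp
  · rintro ⟨e, he⟩
    refine ⟨e.trans f.symm, fun π => ?_⟩
    have h1 := hf π
    have h2 := he (f.symm.trans (π.trans f))
    have h3 : π ∈ G ↔ f.symm.trans (π.trans f) ∈ Wr2X H X := by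
      rw [h1]
      constructor
      · rintro ⟨h, hh⟩
        refine ⟨h, fun x => ?_⟩
        have := hh (f.symm x)
        simpa using this
      · rintro ⟨h, hh⟩
        exact ⟨h, fun i => by simpa using hh (f i)⟩
    rw [h3, h2]
    constructor
    · rintro ⟨σ, hσ⟩
      refine ⟨σ, fun φ => ?_⟩
      have := hσ φ
      simp only [Equiv.trans_apply] at this ⊢
      rw [this]
      simp
    · rintro ⟨σ, hσ⟩
      refine ⟨σ, fun φ => ?_⟩
      have := hσ φ
      simp only [Equiv.trans_apply] at this ⊢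
      rw [← this]
      simp

theorem cnt_eq (K : Type) [Field K] [NumberField K] {H X : Type} [Group H] [MulAction H X]
    [Finite X] [Nonempty X] {n : ℕ}
    {G : Subgroup (Equiv.Perm (Fin n))} (hG : IsC2WrX H X G) (T : ℝ) :
    Cnt K G T = TT K (AlgebraicClosure K) H X (T * ((|discr K| : ℤ) : ℝ) ^ n) := by
  have hn := c2wr_n hG
  ext L
  constructor
  · rintro ⟨h1, h2, h3, h4⟩
    refine ⟨by rw [h1, hn], (hasGp_iff K hG L).1 h2, ?_⟩
    rw [dsc_eq L]
    exact h4
  · rintro ⟨h1, h2, h3⟩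
    have hpos : 0 < Nat.card X := Nat.card_pos
    have hfd : FiniteDimensional K L := FiniteDimensional.of_finrank_pos (by omega)
    have hnf : NumberField L := nf_of_fd L
    refine ⟨by rw [h1, hn], (hasGp_iff K hG L).2 h2, hnf, ?_⟩
    rw [dsc_eq L] at h3
    exact h3

theorem exists_ind_one {H X : Type} [Group H] [MulAction H X] [Nonempty X] {n : ℕ}
    {G : Subgroup (Equiv.Perm (Fin n))} (hG : IsC2WrX H X G) : ∃ g ∈ G, g ≠ 1 ∧ ind g = 1 := by
  obtain ⟨f, hf⟩ := hG
  obtain ⟨x₀⟩ := (inferInstance : Nonempty X)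
  have hab : f.symm (x₀, false) ≠ f.symm (x₀, true) := by
    intro h
    have := f.symm.injective h
    simp at this
  refine ⟨Equiv.swap (f.symm (x₀, false)) (f.symm (x₀, true)), ?_, ?_, ind_swap hab⟩
  · rw [hf]
    refine ⟨1, fun i => ?_⟩
    rw [one_smul]
    by_cases h1 : i = f.symm (x₀, false)
    · subst h1; rw [Equiv.swap_apply_left]; simp
    · by_cases h2 : i = f.symm (x₀, true)
      · subst h2; rw [Equiv.swap_apply_right]; simp
      · rw [Equiv.swap_apply_of_ne_of_ne h1 h2]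
  · intro h
    exact hab (Equiv.swap_eq_one_iff.1 h)

theorem least_ind {H X : Type} [Group H] [MulAction H X] [Nonempty X] {n : ℕ}
    {G : Subgroup (Equiv.Perm (Fin n))} (hG : IsC2WrX H X G) :
    IsLeast {k : ℕ | ∃ g ∈ G, g ≠ 1 ∧ k = ind g} 1 := by
  constructor
  · obtain ⟨g, h1, h2, h3⟩ := exists_ind_one hG
    exact ⟨g, h1, h2, h3.symm⟩
  · rintro k ⟨g, -, h2, rfl⟩
    exact one_le_ind g h2

/-- the asymptotic formula -/
theorem asymp (hmain : S_MAIN) (K : Type) [Field K] [NumberField K] (H X : Type) [Group H]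
    [MulAction H X] [Finite H] [Finite X] [Nonempty X] [FaithfulSMul H X]
    (U : Subgroup H) (hU : U.normalCore = ⊥) (B : Finset X) (hB : B.Nonempty)
    (hB1 : ∀ h : H, (∀ x ∈ B, h • x = x) → h = 1)
    (hc : 8 * B.card * U.index * (U.index + 1) ≤ Nat.card X)
    (hne : (GalX K (AlgebraicClosure K) H X).Nonempty) {n : ℕ} (G : Subgroup (Equiv.Perm (Fin n)))
    (hG : IsC2WrX H X G) :
    (∀ T : ℝ, 0 < T → (Cnt K G T).Finite) ∧ ∃ c : ℝ, 0 < c ∧
      Tendsto (fun T : ℝ => (Set.ncard (Cnt K G T) : ℝ) / T) atTop (𝓝 c) := by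
  have hd : 0 < ((|discr K| : ℤ) : ℝ) ^ n := by
    have : (0 : ℤ) < |discr K| := abs_pos.2 (discr_ne_zero K)
    have : (0 : ℝ) < ((|discr K| : ℤ) : ℝ) := by exact_mod_cast this
    positivity
  have h := hmain K (AlgebraicClosure K) H X U hU B hB hB1 hc hne _ hd
  simp only [cnt_eq K hG]
  exact h

end Pool.Agent.D0H64.MX
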