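import Pool.Agent.Results.MP_bf81c2_nt.LinnikExponent
import Pool.Agent.D0H64.MX.All
import Pool.Agent.D0H64.MX.Stm3

/-!
# The range of `X` from the count of the fields of degree `u`
-/

set_option autoImplicit false
set_option linter.unusedSectionVars false

open NumberField Filter Topology

namespace Pool.Agent.D0H64.MX

open Pool.Agent.TH444.ML

theorem cnte_lin (c : ℝ) (hc : 1 / (8 * (Real.log 2) ^ 2) < c) :
    ∃ u₀ : ℕ, ∀ u : ℕ, u₀ ≤ u → ∀ (K : Type) [Field K] [NumberField K],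
      Cnte K (AlgebraicClosure K) u (c * (Real.log u) ^ 2) := by
  obtain ⟨e, he, hb⟩ := Pool.Agent.Results.MP_bf81c2_nt.LinnikExponent.result
  obtain ⟨u₁, hu₁⟩ := eventually_atTop.1 (he c hc)
  refine ⟨max u₁ 2, fun u hu K _ _ => ?_⟩
  obtain ⟨C, hC⟩ := hb u (le_trans (le_max_right _ _) hu) (Module.finrank ℚ K)
  have hu1 := hu₁ u (le_trans (le_max_left _ _) hu)
  have hu2 : 2 ≤ u := le_trans (le_max_right _ _) hu
  refine ⟨max C 0, fun Z hZ => ?_⟩
  obtain ⟨h1, h2⟩ := hC K rfl Z hZ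
  have hset : {F : IntermediateField K (AlgebraicClosure K) | FiniteDimensional K F ∧
      Module.finrank K F = u ∧ dsc F ≤ Z} =
      Pool.Agent.Results.MP_bf81c2_nt.LinnikExponent.Fields K u Z := by
    ext F
    constructor
    · rintro ⟨h3, h4, h5⟩
      have hnf : NumberField F := nf_of_fd F
      refine ⟨h4, hnf, ?_⟩
      rw [dsc_eq F] at h5
      exact h5
    · rintro ⟨h3, hnf, h4⟩
      have hfd : FiniteDimensional K F := FiniteDimensional.of_finrank_pos (by omega)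
      refine ⟨hfd, h3, ?_⟩
      rw [dsc_eq F]
      exact h4
  rw [hset]
  refine ⟨h1, h2.trans ?_⟩
  have hZ0 : (0 : ℝ) < Z := by linarith
  calc C * Z ^ e u ≤ max C 0 * Z ^ e u :=
        mul_le_mul_of_nonneg_right (le_max_left _ _) (Real.rpow_nonneg hZ0.le _)
    _ ≤ max C 0 * Z ^ (c * (Real.log u) ^ 2) :=
        mul_le_mul_of_nonneg_left (Real.rpow_le_rpow_of_exponent_le hZ hu1) (le_max_right _ _)

theorem c_ok : 1 / (8 * (Real.log 2) ^ 2) < (0.3 : ℝ) := by
  have h := Real.log_two_gt_d9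
  rw [div_lt_iff₀ (by positivity)]
  nlinarith

theorem good_lin (hx : S_FEXE) : ∃ u₀ : ℕ, ∀ (K : Type) [Field K] [NumberField K] (H X : Type)
    [Group H] [MulAction H X] [Finite H] [Finite X] [FaithfulSMul H X]
    [MulAction.IsPretransitive H X], (Gal K (AlgebraicClosure K) H).Nonempty →
    ∀ U : Subgroup H, U.normalCore = ⊥ → u₀ ≤ U.index →
    ∀ B : Finset X, B.Nonempty → (∀ h : H, (∀ x ∈ B, h • x = x) → h = 1) →
    (B.card : ℝ) * U.index * (Real.log U.index) ^ 2 ≤ 4 * Nat.card X →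
    Good K (AlgebraicClosure K) H X := by
  obtain ⟨u₀, hu⟩ := cnte_lin 0.3 c_ok
  refine ⟨u₀, fun K _ _ H X _ _ _ _ _ _ hne U hU hU0 B hB hBf hcard => ?_⟩
  have hXn : Nonempty X := ⟨hB.choose⟩
  have hXpos : (0 : ℝ) < Nat.card X := by exact_mod_cast Nat.card_pos
  refine ⟨Pool.Agent.D0H20.MX.t_REAX K (AlgebraicClosure K) H X hne, ?_⟩
  refine hx K (AlgebraicClosure K) H X U hU B hB hBf (0.3 * (Real.log U.index) ^ 2)
    (by positivity) (hu _ hU0 K) ?_
  nlinarith

/-- the same with the logarithm of the order of `H` instead of a base -/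
theorem good_lin_log (hx : S_FEXE) : ∃ u₀ : ℕ, ∀ (K : Type) [Field K] [NumberField K] (H X : Type)
    [Group H] [MulAction H X] [Finite H] [Finite X] [FaithfulSMul H X]
    [MulAction.IsPretransitive H X] [Nontrivial H], (Gal K (AlgebraicClosure K) H).Nonempty →
    ∀ U : Subgroup H, U.normalCore = ⊥ → u₀ ≤ U.index →
    (Nat.log 2 (Nat.card H) : ℝ) * U.index * (Real.log U.index) ^ 2 ≤ 4 * Nat.card X →
    Good K (AlgebraicClosure K) H X := by
  obtain ⟨u₀, hu⟩ := good_lin hx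
  refine ⟨u₀, fun K _ _ H X _ _ _ _ _ _ _ hne U hU hU0 hcard => ?_⟩
  obtain ⟨B, hB, hBf, hBc⟩ := Pool.Agent.D0H85.MX.t_BAS H X
  refine hu K H X hne U hU hU0 B hB hBf (le_trans ?_ hcard)
  have h1 : B.card ≤ Nat.log 2 (Nat.card H) := Nat.le_log_of_pow_le (by norm_num) hBc
  have h2 : (B.card : ℝ) ≤ Nat.log 2 (Nat.card H) := by exact_mod_cast h1
  gcongr

end Pool.Agent.D0H64.MX
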