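import Pool.Agent.TH444.ML.Tr
import Pool.Agent.D0H64.MX.Stm

/-!
# Assembly of the asymptotic formula
-/

set_option autoImplicit false
set_option linter.unusedSectionVars false

open NumberField Filter Topology

namespace Pool.Agent.D0H64.MX

open Pool.Agent.TH444.ML

section

variable {K Ω : Type} [Field K] [NumberField K] [Field Ω] [Algebra K Ω] [IsAlgClosure K Ω]
variable {H X : Type} [Group H] [MulAction H X] [Finite H] [Finite X] [FaithfulSMul H X]

/-- the extensions with group `C₂ ≀ H` above `M`, of bounded discriminant -/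
def SM (H X : Type) [Group H] [MulAction H X] (M : IntermediateField K Ω) (Z : ℝ) :
    Set (IntermediateField K Ω) :=
  {L | MidX K Ω H X L M ∧ dsc L ≤ Z}

/-- the others -/
def BM (M : IntermediateField K Ω) (Y : ℝ) : Set (IntermediateField K Ω) :=
  {L : IntermediateField K Ω | M ≤ L ∧
      Module.finrank K L = 2 * Module.finrank K M ∧
      nd L ≠ 2 ^ Module.finrank K M * nd M ∧ dsc L ≤ Y * dsc M ^ 2}

theorem gal_fd {M : IntermediateField K Ω} (hM : M ∈ GalX K Ω H X) : FiniteDimensional K M := hM.1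

theorem SM_union (M : IntermediateField K Ω) (hM : M ∈ GalX K Ω H X) (Y : ℝ) :
    SM H X M (Y * dsc M ^ 2) ∪ BM M Y = AS M Y := by
  have := gal_fd hM
  ext L
  constructor
  · rintro (h | h)
    · exact ⟨h.1.2.1, h.1.2.2.2.1, h.2⟩
    · exact ⟨h.1, h.2.1, h.2.2.2⟩
  · rintro ⟨h1, h2, h3⟩
    by_cases hn : nd L = 2 ^ Module.finrank K M * nd M
    · left
      exact ⟨⟨hM, h1, fd_of_AS h2, h2, hn⟩, h3⟩
    · right
      exact ⟨h1, h2, hn, h3⟩

theorem SM_disj (M : IntermediateField K Ω) (Y : ℝ) :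
    Disjoint (SM H X M (Y * dsc M ^ 2)) (BM M Y) := by
  rw [Set.disjoint_left]
  rintro L h1 h2
  exact h2.2.2.1 h1.1.2.2.2.2

theorem finite_AS' (hq : QuadUnif) (M : IntermediateField K Ω) [FiniteDimensional K M] (Y : ℝ)
    (hY : 0 ≤ Y) : (AS M Y).Finite := by
  have hnf : NumberField M := nf_of_fd M
  have : IsAlgClosed Ω := IsAlgClosure.isAlgClosed K
  obtain ⟨C, hC⟩ := hq (Module.finrank ℚ M)
  exact finite_AS M Y (hC M Ω rfl Y hY).1

/-- the limit for a fixed `M` -/
theorem lim_SM (hl : QuadLim) (hp : QuadPos) (hu : QuadUnif) (hb : S_BAD)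
    (M : IntermediateField K Ω) (hM : M ∈ GalX K Ω H X) (D : ℝ) (hD : 0 < D) :
    ∃ c : ℝ, 0 < c ∧
      Tendsto (fun T : ℝ => (Set.ncard (SM H X M (T * D)) : ℝ) / T) atTop (𝓝 c) := by
  have hfd := gal_fd hM
  have hnf : NumberField M := nf_of_fd M
  have hac : IsAlgClosed Ω := IsAlgClosure.isAlgClosed K
  obtain ⟨c, hc⟩ := hl M Ω
  have hc0 : 0 ≤ c := by
    refine ge_of_tendsto hc ?_
    filter_upwards [eventually_ge_atTop (0 : ℝ)] with Y hY
    positivity
  have hc1 : c ≠ 0 := by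
    intro h
    rw [h] at hc
    exact hp M Ω hc
  have hcpos : 0 < c := lt_of_le_of_ne hc0 (Ne.symm hc1)
  set d : ℝ := dsc M with hd
  have hd1 : 1 ≤ d := one_le_dsc M
  have hd0 : 0 < d := by linarith
  have hdd : 0 < D / d ^ 2 := by positivity
  have hbad := hb K Ω M
  -- substitution `Y = T D / d ^ 2`
  have hsub : Tendsto (fun T : ℝ => T * (D / d ^ 2)) atTop atTop :=
    tendsto_id.atTop_mul_const hdd
  have h1 := (hc.comp hsub).mul_const (D / d ^ 2)
  have h2 := (hbad.comp hsub).mul_const (D / d ^ 2)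
  refine ⟨c * (D / d ^ 2), by positivity, ?_⟩
  have h3 := h1.sub h2
  rw [zero_mul, sub_zero] at h3
  refine h3.congr' ?_
  filter_upwards [eventually_gt_atTop (0 : ℝ)] with T hT
  have hY : 0 ≤ T * (D / d ^ 2) := by positivity
  have hfin := finite_AS' hu M (T * (D / d ^ 2)) hY
  have hun := SM_union M hM (T * (D / d ^ 2))
  have hdis := SM_disj (H := H) (X := X) M (T * (D / d ^ 2))
  have hXD : T * (D / d ^ 2) * dsc M ^ 2 = T * D := by
    rw [← hd]; field_simp
  rw [hXD] at hun hdis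
  have hf1 : (SM H X M (T * D)).Finite := hfin.subset (by rw [← hun]; exact Set.subset_union_left)
  have hf2 : (BM M (T * (D / d ^ 2))).Finite :=
    hfin.subset (by rw [← hun]; exact Set.subset_union_right)
  have hcard : Set.ncard (SM H X M (T * D)) + Set.ncard (BM M (T * (D / d ^ 2))) =
      Set.ncard (QS M Ω (T * (D / d ^ 2))) := by
    rw [← Set.ncard_union_eq hdis hf1 hf2, hun, ncard_AS]
  have hcard' : (Set.ncard (SM H X M (T * D)) : ℝ) =
      Set.ncard (QS M Ω (T * (D / d ^ 2))) - Set.ncard (BM M (T * (D / d ^ 2))) := by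
    rw [← hcard]; push_cast; ring
  rw [hcard']
  simp only [Function.comp]
  have e1 : ∀ a : ℝ, a / (T * (D / d ^ 2)) * (D / d ^ 2) = a / T := by
    intro a
    have : D / d ^ 2 ≠ 0 := hdd.ne'
    field_simp
  rw [e1]
  have e2 : (Set.ncard {L : IntermediateField K Ω | M ≤ L ∧
      Module.finrank K L = 2 * Module.finrank K M ∧
      nd L ≠ 2 ^ Module.finrank K M * nd M ∧
        dsc L ≤ T * (D / d ^ 2) * dsc M ^ 2} : ℝ) / (T * (D / d ^ 2)) * (D / d ^ 2) =
      (Set.ncard (BM M (T * (D / d ^ 2))) : ℝ) / T := by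
    rw [e1]; rfl
  rw [e2]
  ring

/-- the degree of `M` -/
theorem deg_M (M : IntermediateField K Ω) (hM : M ∈ GalX K Ω H X) :
    Module.finrank K M = Nat.card X := by
  have hfd := gal_fd hM
  have hac : IsAlgClosed Ω := IsAlgClosure.isAlgClosed K
  obtain ⟨e, -⟩ := hM.2
  rw [← Nat.card_congr e]
  have := Field.finSepDegree_eq_finrank_of_isSeparable K M
  have h2 := Field.finSepDegree_eq_of_isAlgClosed K M Ω
  rw [← this, h2]

/-- the uniform bound -/
theorem bound_SM (hu : QuadUnif) (H X : Type) [Group H] [MulAction H X] [Finite H] [Finite X]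
    [FaithfulSMul H X] (D : ℝ) (hD : 0 < D) :
    ∃ C : ℝ, 0 ≤ C ∧ ∀ M : IntermediateField K Ω, M ∈ GalX K Ω H X → ∀ T : ℝ, 0 < T →
      (SM H X M (T * D)).Finite ∧
      (Set.ncard (SM H X M (T * D)) : ℝ) ≤ C * T * (dsc M) ^ (-(1 / 4) : ℝ) := by
  have hac : IsAlgClosed Ω := IsAlgClosure.isAlgClosed K
  obtain ⟨C, hC⟩ := hu (Module.finrank ℚ K * Nat.card X)
  refine ⟨max C 0 * D, by positivity, ?_⟩
  intro M hM T hT
  have hfd := gal_fd hM
  have hnf : NumberField M := nf_of_fd M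
  have hcard : Module.finrank K M = Nat.card X := deg_M M hM
  have hdeg : Module.finrank ℚ M = Module.finrank ℚ K * Nat.card X := by
    rw [← hcard, Module.finrank_mul_finrank ℚ K M]
  set d : ℝ := dsc M with hd
  have hd1 : 1 ≤ d := one_le_dsc M
  have hd0 : 0 < d := by linarith
  set Y : ℝ := T * (D / d ^ 2) with hYdef
  have hY : 0 ≤ Y := by positivity
  have hXD : Y * dsc M ^ 2 = T * D := by
    rw [← hd, hYdef]; field_simp
  have hun := SM_union M hM Y
  rw [hXD] at hun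
  have hfin := finite_AS' hu M Y hY
  have hf1 : (SM H X M (T * D)).Finite := hfin.subset (by rw [← hun]; exact Set.subset_union_left)
  refine ⟨hf1, ?_⟩
  have h1 : Set.ncard (SM H X M (T * D)) ≤ Set.ncard (QS M Ω Y) := by
    rw [← ncard_AS, ← hun]
    exact Set.ncard_le_ncard Set.subset_union_left (by rw [hun]; exact hfin)
  have h2 := (hC M Ω hdeg Y hY).2
  rw [← dsc_eq M, ← hd] at h2
  have h3 : (Set.ncard (SM H X M (T * D)) : ℝ) ≤ C * d ^ (7 / 4 : ℝ) * Y :=
    le_trans (by exact_mod_cast h1) h2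
  refine h3.trans ?_
  have h4 : d ^ (7 / 4 : ℝ) * (d ^ 2)⁻¹ = d ^ (-(1 / 4) : ℝ) := by
    rw [← Real.rpow_natCast, ← Real.rpow_neg hd0.le, ← Real.rpow_add hd0]
    norm_num
  have h5 : C * d ^ (7 / 4 : ℝ) * Y = C * (D * T * d ^ (-(1 / 4) : ℝ)) := by
    rw [hYdef, ← h4]
    ring
  rw [h5]
  have h6 : C * (D * T * d ^ (-(1 / 4) : ℝ)) ≤ max C 0 * (D * T * d ^ (-(1 / 4) : ℝ)) := by
    apply mul_le_mul_of_nonneg_right (le_max_left _ _)
    positivity
  refine h6.trans (le_of_eq ?_)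
  ring

/-- the extensions of `K` with group `C₂ ≀ H` -/
def TT (K Ω H X : Type) [Field K] [Field Ω] [Algebra K Ω] [Group H] [MulAction H X] (Z : ℝ) :
    Set (IntermediateField K Ω) :=
  {L | Module.finrank K L = 2 * Nat.card X ∧ IsWrX K Ω H X L ∧ dsc L ≤ Z}

theorem TT_eq (hlab : S_LAB) (hblk : S_BLK) (Z : ℝ) :
    TT K Ω H X Z = ⋃ M : GalX K Ω H X, SM H X M.1 Z := by
  ext L
  simp only [Set.mem_iUnion]
  constructor
  · rintro ⟨h1, h2, h3⟩
    obtain ⟨M, hM⟩ := hblk K Ω H X L h1 h2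
    exact ⟨⟨M, hM.1⟩, hM, h3⟩
  · rintro ⟨M, hM, h3⟩
    obtain ⟨e, -, he⟩ := hlab K Ω H X L M.1 hM
    refine ⟨?_, ⟨e, he⟩, h3⟩
    rw [hM.2.2.2.1, deg_M M.1 M.2]

theorem main_asymp (hl : QuadLim) (hp : QuadPos) (hu : QuadUnif) (hb : S_BAD) (hlab : S_LAB)
    (hblk : S_BLK) (hm : S_MIU)
    (hsum : Summable (fun M : GalX K Ω H X => (dsc M.1) ^ (-(1 / 4) : ℝ)))
    (hne : (GalX K Ω H X).Nonempty) (D : ℝ) (hD : 0 < D) :
    (∀ T : ℝ, 0 < T → (TT K Ω H X (T * D)).Finite) ∧ ∃ c : ℝ, 0 < c ∧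
      Tendsto (fun T : ℝ => (Set.ncard (TT K Ω H X (T * D)) : ℝ) / T) atTop (𝓝 c) := by
  classical
  obtain ⟨C, hC0, hC⟩ := bound_SM (K := K) (Ω := Ω) hu H X D hD
  choose cM hcM using fun M : GalX K Ω H X => lim_SM (H := H) (X := X) hl hp hu hb M.1 M.2 D hD
  have hsum' : Summable (fun M : GalX K Ω H X => C * (dsc M.1) ^ (-(1 / 4) : ℝ)) := hsum.mul_left C
  -- for fixed `T`
  have key : ∀ T : ℝ, 0 < T → (TT K Ω H X (T * D)).Finite ∧
      (Set.ncard (TT K Ω H X (T * D)) : ℝ) =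
        ∑' M : GalX K Ω H X, (Set.ncard (SM H X M.1 (T * D)) : ℝ) := by
    intro T hT
    have hs1 : Summable (fun M : GalX K Ω H X => (Set.ncard (SM H X M.1 (T * D)) : ℝ)) := by
      refine Summable.of_nonneg_of_le (fun M => by positivity)
        (fun M => (hC M.1 M.2 T hT).2) ?_
      have : (fun M : GalX K Ω H X => C * T * (dsc M.1) ^ (-(1 / 4) : ℝ)) =
          fun M : GalX K Ω H X => T * (C * (dsc M.1) ^ (-(1 / 4) : ℝ)) := by
        funext M; ring
      rw [this]
      exact hsum'.mul_left T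
    have hfs : {M : GalX K Ω H X | (SM H X M.1 (T * D)).Nonempty}.Finite := by
      have h := hs1.tendsto_cofinite_zero.eventually (gt_mem_nhds (zero_lt_one (α := ℝ)))
      rw [Filter.eventually_cofinite] at h
      refine h.subset ?_
      intro M hM
      simp only [Set.mem_ofPred_eq, not_lt]
      have hf := (hC M.1 M.2 T hT).1
      have : 0 < Set.ncard (SM H X M.1 (T * D)) := (Set.ncard_pos hf).2 hM
      exact_mod_cast this
    have hTT : TT K Ω H X (T * D) = ⋃ M ∈ hfs.toFinset, SM H X M.1 (T * D) := by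
      rw [TT_eq hlab hblk]
      ext L
      simp only [Set.mem_iUnion, Set.Finite.mem_toFinset, Set.mem_ofPred_eq, exists_prop]
      constructor
      · rintro ⟨M, hM⟩
        exact ⟨M, ⟨L, hM⟩, hM⟩
      · rintro ⟨M, -, hM⟩
        exact ⟨M, hM⟩
    have hTf : (TT K Ω H X (T * D)).Finite := by
      rw [hTT]
      exact Set.Finite.biUnion hfs.toFinset.finite_toSet (fun M _ => (hC M.1 M.2 T hT).1)
    refine ⟨hTf, ?_⟩
    have hTb : hTf.toFinset =
        hfs.toFinset.biUnion (fun M => ((hC M.1 M.2 T hT).1).toFinset) := by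
      ext L
      rw [Set.Finite.mem_toFinset, hTT]
      simp only [Set.mem_iUnion, Finset.mem_biUnion, Set.Finite.mem_toFinset, exists_prop]
    have hcard : (TT K Ω H X (T * D)).ncard =
        ∑ M ∈ hfs.toFinset, (SM H X M.1 (T * D)).ncard := by
      rw [Set.ncard_eq_toFinset_card _ hTf, hTb, Finset.card_biUnion]
      · refine Finset.sum_congr rfl fun M _ => ?_
        exact (Set.ncard_eq_toFinset_card _ (hC M.1 M.2 T hT).1).symm
      · intro M _ M' _ hMM
        simp only [Function.onFun]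
        rw [Finset.disjoint_left]
        intro L h1 h2'
        rw [Set.Finite.mem_toFinset] at h1 h2'
        exact hMM (Subtype.ext (hm K Ω H X L M.1 M'.1 h1.1 h2'.1))
    rw [hcard, tsum_eq_sum (s := hfs.toFinset)]
    · push_cast; rfl
    · intro M hM
      have : ¬ (SM H X M.1 (T * D)).Nonempty := by
        intro h; exact hM (by simpa using h)
      rw [Set.not_nonempty_iff_eq_empty] at this
      rw [this]; simp
  refine ⟨fun T hT => (key T hT).1, ∑' M : GalX K Ω H X, cM M, ?_, ?_⟩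
  · have hle : ∀ M : GalX K Ω H X, cM M ≤ C * (dsc M.1) ^ (-(1 / 4) : ℝ) := by
      intro M
      refine le_of_tendsto (hcM M).2 ?_
      filter_upwards [eventually_gt_atTop (0 : ℝ)] with T hT
      rw [div_le_iff₀ hT]
      have := (hC M.1 M.2 T hT).2
      linarith
    have hs : Summable cM :=
      Summable.of_nonneg_of_le (fun M => (hcM M).1.le) hle hsum'
    obtain ⟨M₀, hM₀⟩ := hne
    exact hs.tsum_pos (fun M => (hcM M).1.le) ⟨M₀, hM₀⟩ (hcM _).1
  · have h := tendsto_tsum_of_dominated_convergence (𝓕 := atTop)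
      (f := fun (T : ℝ) (M : GalX K Ω H X) => (Set.ncard (SM H X M.1 (T * D)) : ℝ) / T)
      (g := cM) hsum' (fun M => (hcM M).2) (by
        filter_upwards [eventually_gt_atTop (0 : ℝ)] with T hT M
        rw [Real.norm_of_nonneg (by positivity), div_le_iff₀ hT]
        have := (hC M.1 M.2 T hT).2
        linarith)
    refine h.congr' ?_
    filter_upwards [eventually_gt_atTop (0 : ℝ)] with T hT
    rw [(key T hT).2, tsum_div_const]

end

theorem t_MAIN (hl : QuadLim) (hp : QuadPos) (hu : QuadUnif) (hb : S_BAD) (hlab : S_LAB)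
    (hblk : S_BLK) (hm : S_MIU) (hf : S_FEWX) : S_MAIN := by
  intro K Ω _ _ _ _ _ H X _ _ _ _ _ U hU B hB hB1 hc hne D hD
  exact main_asymp hl hp hu hb hlab hblk hm (hf K Ω H X U hU B hB hB1 hc) hne D hD

end Pool.Agent.D0H64.MX
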