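import Pool.Agent.D0H64.MX.Main
import Pool.Agent.D0H64.MX.Stm2

/-!
# Assembly of the asymptotic formula, version with the better uniform bound
-/

set_option autoImplicit false
set_option linter.unusedSectionVars false

open NumberField Filter Topology

namespace Pool.Agent.D0H64.MX

open Pool.Agent.TH444.ML

section

variable {K Ω : Type} [Field K] [NumberField K] [Field Ω] [Algebra K Ω] [IsAlgClosure K Ω]
variable {H X : Type} [Group H] [MulAction H X] [Finite H] [Finite X] [FaithfulSMul H X]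

/-- the uniform bound -/
theorem bound_SM2 (hu0 : QuadUnif) (hu : S_QU2) (H X : Type) [Group H] [MulAction H X] [Finite H] [Finite X]
    [FaithfulSMul H X] (D : ℝ) (hD : 0 < D) :
    ∃ C : ℝ, 0 ≤ C ∧ ∀ M : IntermediateField K Ω, M ∈ GalX K Ω H X → ∀ T : ℝ, 0 < T →
      (SM H X M (T * D)).Finite ∧
      (Set.ncard (SM H X M (T * D)) : ℝ) ≤ C * T * (dsc M) ^ (-(5 / 4) : ℝ) := by
  have hac : IsAlgClosed Ω := IsAlgClosure.isAlgClosed K
  obtain ⟨C, hC⟩ := hu (Module.finrank ℚ K * Nat.card X)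
  refine ⟨max C 0 * D, by positivity, ?_⟩
  intro M hM T hT
  have hfd := gal_fd hM
  have hnf : NumberField M := nf_of_fd M
  have hcard : Module.finrank K M = Nat.card X := deg_M M hM
  have hdeg : Module.finrank ℚ M = Module.finrank ℚ K * Nat.card X := by
    rw [← hcard, Module.finrank_mul_finrank ℚ K M]
  set d : ℝ := dsc M with hd
  have hd1 : 1 ≤ d := one_le_dsc M
  have hd0 : 0 < d := by linarith
  set Y : ℝ := T * (D / d ^ 2) with hYdef
  have hY : 0 ≤ Y := by positivity
  have hXD : Y * dsc M ^ 2 = T * D := by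
    rw [← hd, hYdef]; field_simp
  have hun := SM_union M hM Y
  rw [hXD] at hun
  have hfin := finite_AS' hu0 M Y hY
  have hf1 : (SM H X M (T * D)).Finite := hfin.subset (by rw [← hun]; exact Set.subset_union_left)
  refine ⟨hf1, ?_⟩
  have h1 : Set.ncard (SM H X M (T * D)) ≤ Set.ncard (QS M Ω Y) := by
    rw [← ncard_AS, ← hun]
    exact Set.ncard_le_ncard Set.subset_union_left (by rw [hun]; exact hfin)
  have h2 := (hC M Ω hdeg Y hY).2
  rw [← dsc_eq M, ← hd] at h2
  have h3 : (Set.ncard (SM H X M (T * D)) : ℝ) ≤ C * d ^ (3 / 4 : ℝ) * Y :=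
    le_trans (by exact_mod_cast h1) h2
  refine h3.trans ?_
  have h4 : d ^ (3 / 4 : ℝ) * (d ^ 2)⁻¹ = d ^ (-(5 / 4) : ℝ) := by
    rw [← Real.rpow_natCast, ← Real.rpow_neg hd0.le, ← Real.rpow_add hd0]
    norm_num
  have h5 : C * d ^ (3 / 4 : ℝ) * Y = C * (D * T * d ^ (-(5 / 4) : ℝ)) := by
    rw [hYdef, ← h4]
    ring
  rw [h5]
  have h6 : C * (D * T * d ^ (-(5 / 4) : ℝ)) ≤ max C 0 * (D * T * d ^ (-(5 / 4) : ℝ)) := by
    apply mul_le_mul_of_nonneg_right (le_max_left _ _)
    positivity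
  refine h6.trans (le_of_eq ?_)
  ring

theorem main_asymp2 (hl : QuadLim) (hp : QuadPos) (hu : QuadUnif) (hu2 : S_QU2) (hb : S_BAD) (hlab : S_LAB)
    (hblk : S_BLK) (hm : S_MIU)
    (hsum : Summable (fun M : GalX K Ω H X => (dsc M.1) ^ (-(5 / 4) : ℝ)))
    (hne : (GalX K Ω H X).Nonempty) (D : ℝ) (hD : 0 < D) :
    (∀ T : ℝ, 0 < T → (TT K Ω H X (T * D)).Finite) ∧ ∃ c : ℝ, 0 < c ∧
      Tendsto (fun T : ℝ => (Set.ncard (TT K Ω H X (T * D)) : ℝ) / T) atTop (𝓝 c) := by
  classical
  obtain ⟨C, hC0, hC⟩ := bound_SM2 (K := K) (Ω := Ω) hu hu2 H X D hD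
  choose cM hcM using fun M : GalX K Ω H X => lim_SM (H := H) (X := X) hl hp hu hb M.1 M.2 D hD
  have hsum' : Summable (fun M : GalX K Ω H X => C * (dsc M.1) ^ (-(5 / 4) : ℝ)) := hsum.mul_left C
  -- for fixed `T`
  have key : ∀ T : ℝ, 0 < T → (TT K Ω H X (T * D)).Finite ∧
      (Set.ncard (TT K Ω H X (T * D)) : ℝ) =
        ∑' M : GalX K Ω H X, (Set.ncard (SM H X M.1 (T * D)) : ℝ) := by
    intro T hT
    have hs1 : Summable (fun M : GalX K Ω H X => (Set.ncard (SM H X M.1 (T * D)) : ℝ)) := by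
      refine Summable.of_nonneg_of_le (fun M => by positivity)
        (fun M => (hC M.1 M.2 T hT).2) ?_
      have : (fun M : GalX K Ω H X => C * T * (dsc M.1) ^ (-(5 / 4) : ℝ)) =
          fun M : GalX K Ω H X => T * (C * (dsc M.1) ^ (-(5 / 4) : ℝ)) := by
        funext M; ring
      rw [this]
      exact hsum'.mul_left T
    have hfs : {M : GalX K Ω H X | (SM H X M.1 (T * D)).Nonempty}.Finite := by
      have h := hs1.tendsto_cofinite_zero.eventually (gt_mem_nhds (zero_lt_one (α := ℝ)))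
      rw [Filter.eventually_cofinite] at h
      refine h.subset ?_
      intro M hM
      simp only [Set.mem_ofPred_eq, not_lt]
      have hf := (hC M.1 M.2 T hT).1
      have : 0 < Set.ncard (SM H X M.1 (T * D)) := (Set.ncard_pos hf).2 hM
      exact_mod_cast this
    have hTT : TT K Ω H X (T * D) = ⋃ M ∈ hfs.toFinset, SM H X M.1 (T * D) := by
      rw [TT_eq hlab hblk]
      ext L
      simp only [Set.mem_iUnion, Set.Finite.mem_toFinset, Set.mem_ofPred_eq, exists_prop]
      constructor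
      · rintro ⟨M, hM⟩
        exact ⟨M, ⟨L, hM⟩, hM⟩
      · rintro ⟨M, -, hM⟩
        exact ⟨M, hM⟩
    have hTf : (TT K Ω H X (T * D)).Finite := by
      rw [hTT]
      exact Set.Finite.biUnion hfs.toFinset.finite_toSet (fun M _ => (hC M.1 M.2 T hT).1)
    refine ⟨hTf, ?_⟩
    have hTb : hTf.toFinset =
        hfs.toFinset.biUnion (fun M => ((hC M.1 M.2 T hT).1).toFinset) := by
      ext L
      rw [Set.Finite.mem_toFinset, hTT]
      simp only [Set.mem_iUnion, Finset.mem_biUnion, Set.Finite.mem_toFinset, exists_prop]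
    have hcard : (TT K Ω H X (T * D)).ncard =
        ∑ M ∈ hfs.toFinset, (SM H X M.1 (T * D)).ncard := by
      rw [Set.ncard_eq_toFinset_card _ hTf, hTb, Finset.card_biUnion]
      · refine Finset.sum_congr rfl fun M _ => ?_
        exact (Set.ncard_eq_toFinset_card _ (hC M.1 M.2 T hT).1).symm
      · intro M _ M' _ hMM
        simp only [Function.onFun]
        rw [Finset.disjoint_left]
        intro L h1 h2'
        rw [Set.Finite.mem_toFinset] at h1 h2'
        exact hMM (Subtype.ext (hm K Ω H X L M.1 M'.1 h1.1 h2'.1))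
    rw [hcard, tsum_eq_sum (s := hfs.toFinset)]
    · push_cast; rfl
    · intro M hM
      have : ¬ (SM H X M.1 (T * D)).Nonempty := by
        intro h; exact hM (by simpa using h)
      rw [Set.not_nonempty_iff_eq_empty] at this
      rw [this]; simp
  refine ⟨fun T hT => (key T hT).1, ∑' M : GalX K Ω H X, cM M, ?_, ?_⟩
  · have hle : ∀ M : GalX K Ω H X, cM M ≤ C * (dsc M.1) ^ (-(5 / 4) : ℝ) := by
      intro M
      refine le_of_tendsto (hcM M).2 ?_
      filter_upwards [eventually_gt_atTop (0 : ℝ)] with T hT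
      rw [div_le_iff₀ hT]
      have := (hC M.1 M.2 T hT).2
      linarith
    have hs : Summable cM :=
      Summable.of_nonneg_of_le (fun M => (hcM M).1.le) hle hsum'
    obtain ⟨M₀, hM₀⟩ := hne
    exact hs.tsum_pos (fun M => (hcM M).1.le) ⟨M₀, hM₀⟩ (hcM _).1
  · have h := tendsto_tsum_of_dominated_convergence (𝓕 := atTop)
      (f := fun (T : ℝ) (M : GalX K Ω H X) => (Set.ncard (SM H X M.1 (T * D)) : ℝ) / T)
      (g := cM) hsum' (fun M => (hcM M).2) (by
        filter_upwards [eventually_gt_atTop (0 : ℝ)] with T hT M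
        rw [Real.norm_of_nonneg (by positivity), div_le_iff₀ hT]
        have := (hC M.1 M.2 T hT).2
        linarith)
    refine h.congr' ?_
    filter_upwards [eventually_gt_atTop (0 : ℝ)] with T hT
    rw [(key T hT).2, tsum_div_const]

end


theorem main_good (hl : QuadLim) (hp : QuadPos) (hu : QuadUnif) (hu2 : S_QU2) (hb : S_BAD)
    (hlab : S_LAB) (hblk : S_BLK) (hm : S_MIU) (K Ω : Type) [Field K] [NumberField K] [Field Ω]
    [Algebra K Ω] [IsAlgClosure K Ω] (H X : Type) [Group H] [MulAction H X] [Finite H] [Finite X]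
    [FaithfulSMul H X] (hg : Good K Ω H X) (D : ℝ) (hD : 0 < D) :
    (∀ Z : ℝ, 0 < Z → {L : IntermediateField K Ω | Module.finrank K L = 2 * Nat.card X ∧
      IsWrX K Ω H X L ∧ dsc L ≤ Z * D}.Finite) ∧ ∃ c : ℝ, 0 < c ∧
      Tendsto (fun Z : ℝ => (Set.ncard {L : IntermediateField K Ω |
        Module.finrank K L = 2 * Nat.card X ∧ IsWrX K Ω H X L ∧ dsc L ≤ Z * D} : ℝ) / Z)
        atTop (𝓝 c) :=
  main_asymp2 hl hp hu hu2 hb hlab hblk hm hg.2 hg.1 D hD

end Pool.Agent.D0H64.MX
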