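import Pool.Agent.D0H64.MX.All3

/-!
# The symmetric groups over the rationals
-/

set_option autoImplicit false
set_option linter.unusedSectionVars false

open NumberField Filter Topology

namespace Pool.Agent.D0H64.MX

open Pool.Agent.TH444.ML

theorem iac (K : Type) [Field K] : IsAlgClosure K (AlgebraicClosure K) := inferInstance

/-- the pair is good over `K` -/
def GoodC (K : Type) [Field K] [NumberField K] (H X : Type) [Group H] [MulAction H X] : Prop :=
  Good K (AlgebraicClosure K) H X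

theorem reaxC (K : Type) [Field K] [NumberField K] (m : ℕ) (X : Type)
    [Finite X] [Nonempty X] [MulAction (Equiv.Perm (Fin m)) X]
    [FaithfulSMul (Equiv.Perm (Fin m)) X] [MulAction.IsPretransitive (Equiv.Perm (Fin m)) X]
    (h : Summable (fun M : GalX K (AlgebraicClosure K) (Equiv.Perm (Fin m)) X =>
      (dsc M.1) ^ (-(5 / 4) : ℝ))) : GoodC K (Equiv.Perm (Fin m)) X :=
  ⟨Pool.Agent.D0H20.MX.t_REAX K (AlgebraicClosure K) (Equiv.Perm (Fin m)) X (gal_perm K m), h⟩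

theorem good_rat (h : S_FEWS) : ∃ (C : ℝ) (m₀ : ℕ), 0 < C ∧ ∀ m : ℕ, m₀ ≤ m → ∀ (X : Type)
    [Finite X] [MulAction (Equiv.Perm (Fin m)) X]
    [FaithfulSMul (Equiv.Perm (Fin m)) X] [MulAction.IsPretransitive (Equiv.Perm (Fin m)) X],
    C * m * (Real.log m) ^ 3 ≤ (Nat.card X : ℝ) →
    GoodC ℚ (Equiv.Perm (Fin m)) X := by
  obtain ⟨C, hC⟩ := h
  obtain ⟨u₀, hu⟩ := cnte_lin 0.3 c_ok
  refine ⟨C + 1, max u₀ 11, by positivity, fun m hm X _ _ _ _ hX => ?_⟩
  have hm11 : 11 ≤ m := le_trans (le_max_right _ _) hm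
  have hm0 : u₀ ≤ m := le_trans (le_max_left _ _) hm
  have hmR : (11 : ℝ) ≤ m := by exact_mod_cast hm11
  have hlog : 0 < Real.log m := Real.log_pos (by linarith)
  have hXpos : (0 : ℝ) < Nat.card X := lt_of_lt_of_le (by positivity) hX
  have hXn : Nonempty X := (Nat.card_pos_iff.1 (by exact_mod_cast hXpos)).1
  apply reaxC ℚ m X
  refine @hC m hm11 (AlgebraicClosure ℚ) _ _ (iac ℚ) X _ _ _ _ _
    (0.3 * (Real.log m) ^ 2) (by positivity) (hu m hm0 ℚ) ?_
  have h1 : (Nat.log 2 m : ℝ) * Real.log 2 ≤ Real.log m := by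
    have h2 : (2 : ℕ) ^ Nat.log 2 m ≤ m := Nat.pow_log_le_self 2 (by omega)
    have h3 : ((2 : ℝ)) ^ Nat.log 2 m ≤ m := by exact_mod_cast h2
    have h4 := Real.log_le_log (by positivity) h3
    rwa [Real.log_pow] at h4
  have h2 := Real.log_two_gt_d9
  have h3 : (Nat.log 2 m : ℝ) ≤ 1.5 * Real.log m := by
    have h5 : (0 : ℝ) ≤ Nat.log 2 m := Nat.cast_nonneg _
    nlinarith
  have h6 : (0 : ℝ) ≤ C := Nat.cast_nonneg _
  have h7 : 4 * (C : ℝ) * m * Nat.log 2 m * (0.3 * (Real.log m) ^ 2) ≤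
      4 * (C : ℝ) * m * (1.5 * Real.log m) * (0.3 * (Real.log m) ^ 2) := by
    gcongr
  have h8 : 4 * (C : ℝ) * m * (1.5 * Real.log m) * (0.3 * (Real.log m) ^ 2) =
      1.8 * (C * m * (Real.log m) ^ 3) := by ring
  have h9 : (C : ℝ) * m * (Real.log m) ^ 3 ≤ (C + 1 : ℝ) * m * (Real.log m) ^ 3 := by
    gcongr
    linarith
  have h10 : (C : ℝ) * m * (Real.log m) ^ 3 ≤ Nat.card X := h9.trans hX
  linarith

end Pool.Agent.D0H64.MX
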