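import Pool.Agent.D0H64.MX.Stm3
import Pool.Agent.D0H15.TI.Stm

/-!
# Project MX, last modules: the comparison of discriminants over every number field
-/

set_option autoImplicit false

open NumberField

namespace Pool.Agent.D0H64.MX

open Pool.Agent.TH444.ML
open Pool.Agent.D0H15.TI (orb)

/-- the subgroup of `G` belonging to the subgroup `V` of `S_m`, for `ρ : A → S_m`, `A ≤ G` -/
def Pre {G : Type} [Group G] {m : ℕ} (A : Subgroup G) (ρ : A →* Equiv.Perm (Fin m))
    (V : Subgroup (Equiv.Perm (Fin m))) : Subgroup G := (V.comap ρ).map A.subtype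

/-- MODULE KORB (25 min; group theory only; theorem `t_KORB : S_ORBM → S_KORB`).  `ρ : A → S_m`
surjective, `V` core-free, `I ≤ G`.  The fibres of `G ⧸ Pre V → G ⧸ A`: for `x` in
`I \ G / A` let `I_x = ρ (x⁻¹ I x ∩ A)` and `c_x = [I : I ∩ x A x⁻¹]` (size of the orbit of `x A`); the
number of the `I`-orbits on `G ⧸ Pre V` over the orbit of `x A` is the number of `I_x`-orbits on
`S_m ⧸ V`.  So `[G : Pre V] - orb I (Pre V) = ∑_x (c_x |S_m ⧸ V| - orb(I_x, S_m ⧸ V))`, and the same for the
stabiliser of `i` instead of `V` (`m` points).  For each `x`, with `X = S_m ⧸ V`, `L = C m log m`: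
`|X| (c m - orb(I_x, points)) = |X| m (c - 1) + |X| (m - orb(I_x, points)) ≤ L |X| (c - 1) + L (|X| - orb(I_x, X))`. -/
def S_KORB : Prop :=
  ∃ C : ℕ, ∀ m : ℕ, 11 ≤ m → ∀ (G : Type) [Group G] [Finite G] (A : Subgroup G)
    (ρ : A →* Equiv.Perm (Fin m)), Function.Surjective ρ →
    ∀ V : Subgroup (Equiv.Perm (Fin m)), V.normalCore = ⊥ → ∀ (i : Fin m) (I : Subgroup G),
    V.index * ((Pre A ρ (MulAction.stabilizer (Equiv.Perm (Fin m)) i)).index -
      orb I (Pre A ρ (MulAction.stabilizer (Equiv.Perm (Fin m)) i))) ≤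
    C * m * Nat.log 2 m * ((Pre A ρ V).index - orb I (Pre A ρ V))

/-- the comparison of discriminants over `K` (the same as `Pool.Agent.D0H35.MX.CmpP`) -/
def CmpQ (K Ω : Type) [Field K] [Field Ω] [Algebra K Ω] (m k W : ℕ) : Prop :=
  ∀ (N : IntermediateField K Ω) [FiniteDimensional K N] [IsGalois K N] [NumberField N]
    (r : (N ≃ₐ[K] N) ≃* Equiv.Perm (Fin m)) (M F : IntermediateField K N),
    M.fixingSubgroup.normalCore = ⊥ →
    (∃ i : Fin m, F.fixingSubgroup.map r.toMonoidHom = MulAction.stabilizer (Equiv.Perm (Fin m)) i) →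
    ∀ (_ : NumberField F) (_ : NumberField M),
    (NumberField.discr F).natAbs ^ Module.finrank K M ≤ W * (NumberField.discr M).natAbs ^ k

/-- MODULE KFLD (40 min; theorem `t_KFLD : S_KORB → S_WILD → S_KFLD`; model: helper16's
`Pool.Agent.D0H16.MX.cmpd_of`).  Let `E` be the normal closure of `N` over `ℚ` (inside `Ω`, or any normal closure
of the field `N`), `G = Gal(E/ℚ)`, `A` the subgroup fixing `K`, `ρ` = restriction to `N` followed by `r` (onto).
The subgroup of `G` fixing (the image in `E` of) `M` is `Pre A ρ V` with `V = r (M.fixingSubgroup)`, core-free, `V.index = [M : K]`,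
and for `F` the same with the stabiliser of `i`.  For `p` not dividing `[E : ℚ]`: `S_IND` (proved:
`Pool.Agent.D0H21.TI.t_IND ..`) for the two subfields of `E` and `S_KORB` give
`[M : K] v_p(disc F) ≤ C m log m v_p(disc M)`; for the other `p`, `disc F ∣ disc E`, `v_p(disc E) ≤ [E : ℚ] ^ 2` by
`S_WILD`, `[E : ℚ]` divides `([K : ℚ] m!)!`, which does not depend on `N`. -/
def S_KFLD : Prop :=
  ∃ C : ℕ, ∀ m : ℕ, 11 ≤ m → ∀ (K Ω : Type) [Field K] [NumberField K] [Field Ω] [Algebra K Ω]
    [IsAlgClosure K Ω], ∃ W : ℕ, CmpQ K Ω m (C * m * Nat.log 2 m) W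

end Pool.Agent.D0H64.MX
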