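import Pool.Agent.D0H64.MX.Rat
import Pool.Agent.D0H64.MX.Stm4
import Pool.Agent.D0H35.MX.Fews

/-!
# The symmetric groups over all number fields
-/

set_option autoImplicit false
set_option linter.unusedSectionVars false

open NumberField Filter Topology

namespace Pool.Agent.D0H64.MX

open Pool.Agent.TH444.ML

theorem good_symK (h : S_KFLD) : ∃ (C : ℝ) (m₀ : ℕ), 0 < C ∧ ∀ m : ℕ, m₀ ≤ m →
    ∀ (K : Type) [Field K] [NumberField K] (X : Type)
    [Finite X] [MulAction (Equiv.Perm (Fin m)) X]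
    [FaithfulSMul (Equiv.Perm (Fin m)) X] [MulAction.IsPretransitive (Equiv.Perm (Fin m)) X],
    C * m * (Real.log m) ^ 3 ≤ (Nat.card X : ℝ) →
    Good K (AlgebraicClosure K) (Equiv.Perm (Fin m)) X := by
  obtain ⟨C, hC⟩ := h
  obtain ⟨u₀, hu⟩ := cnte_lin 0.3 c_ok
  refine ⟨C + 1, max u₀ 11, by positivity, fun m hm K _ _ X _ _ _ _ hX => ?_⟩
  have hm11 : 11 ≤ m := le_trans (le_max_right _ _) hm
  have hm0 : u₀ ≤ m := le_trans (le_max_left _ _) hm
  have hmR : (11 : ℝ) ≤ m := by exact_mod_cast hm11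
  have hlog : 0 < Real.log m := Real.log_pos (by linarith)
  have hXpos : (0 : ℝ) < Nat.card X := lt_of_lt_of_le (by positivity) hX
  have hXn : Nonempty X := (Nat.card_pos_iff.1 (by exact_mod_cast hXpos)).1
  obtain ⟨W, hW⟩ := hC m hm11 K (AlgebraicClosure K)
  refine ⟨Pool.Agent.D0H20.MX.t_REAX K (AlgebraicClosure K) (Equiv.Perm (Fin m)) X
    (gal_perm K m), ?_⟩
  have hl1 : 1 ≤ Nat.log 2 m := (Nat.le_log_iff_pow_le (by norm_num) (by omega)).2 (by omega)
  have hk1 : 1 ≤ (C + 1) * m * Nat.log 2 m :=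
    Nat.mul_pos (Nat.mul_pos (Nat.succ_pos C) (by omega)) hl1
  have hP : Pool.Agent.D0H35.MX.CmpP K (AlgebraicClosure K) m ((C + 1) * m * Nat.log 2 m) W := by
    intro N _ _ _ r M F h1 h2 hnF hnM
    have h3 := hW N r M F h1 h2 hnF hnM
    have h4 : 1 ≤ (NumberField.discr M).natAbs := Int.natAbs_pos.2 (NumberField.discr_ne_zero M)
    have h5 : (NumberField.discr M).natAbs ^ (C * m * Nat.log 2 m) ≤
        (NumberField.discr M).natAbs ^ ((C + 1) * m * Nat.log 2 m) := by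
      apply Nat.pow_le_pow_right h4
      gcongr
      omega
    exact h3.trans (Nat.mul_le_mul_left W h5)
  refine Pool.Agent.D0H35.MX.fews_gen nbd Pool.Agent.D0H70.MX.t_FIB K (AlgebraicClosure K) X m _ W
    (by omega) hk1 hP (0.3 * (Real.log m) ^ 2) (by positivity) (hu m hm0 K) ?_
  have h1 : (Nat.log 2 m : ℝ) * Real.log 2 ≤ Real.log m := by
    have h2 : (2 : ℕ) ^ Nat.log 2 m ≤ m := Nat.pow_log_le_self 2 (by omega)
    have h3 : ((2 : ℝ)) ^ Nat.log 2 m ≤ m := by exact_mod_cast h2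
    have h4 := Real.log_le_log (by positivity) h3
    rwa [Real.log_pow] at h4
  have h2 := Real.log_two_gt_d9
  have h3 : (Nat.log 2 m : ℝ) ≤ 1.5 * Real.log m := by
    have h5 : (0 : ℝ) ≤ Nat.log 2 m := Nat.cast_nonneg _
    nlinarith
  have h6 : (0 : ℝ) ≤ C := Nat.cast_nonneg _
  push_cast
  have h7 : 4 * (((C : ℝ) + 1) * m * Nat.log 2 m) * (0.3 * (Real.log m) ^ 2) ≤
      4 * (((C : ℝ) + 1) * m * (1.5 * Real.log m)) * (0.3 * (Real.log m) ^ 2) := by
    gcongr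
  have h8 : 4 * (((C : ℝ) + 1) * m * (1.5 * Real.log m)) * (0.3 * (Real.log m) ^ 2) =
      1.8 * ((C + 1) * m * (Real.log m) ^ 3) := by ring
  linarith

end Pool.Agent.D0H64.MX
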