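import Pool.Agent.D0H64.MX.Rat3
import Pool.Agent.D0H3.MX.Mov
import Pool.Agent.D0H3.MX.Korb
import Pool.Agent.D0H30.MX.Wild
import Pool.Agent.D0H49.MX.Kfld
import Pool.Agent.D0H85.MX.Gen

/-!
# The comparison of discriminants over all number fields
-/

set_option autoImplicit false

namespace Pool.Agent.D0H64.MX

theorem orbm : S_ORBM :=
  Pool.Agent.D0H3.MX.t_ORBM (Pool.Agent.D0H3.MX.t_MOV Pool.Agent.D0H85.MX.t_GEN)

theorem kfld : S_KFLD :=
  Pool.Agent.D0H49.MX.t_KFLD (Pool.Agent.D0H3.MX.t_KORB orbm) Pool.Agent.D0H30.MX.t_WILD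

end Pool.Agent.D0H64.MX
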