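import Pool.Agent.D0H64.MX.Main2
import Pool.Agent.D0H64.MX.Fin

/-!
# Iterated wreath products
-/

set_option autoImplicit false
set_option linter.unusedSectionVars false

open NumberField Filter Topology

namespace Pool.Agent.D0H64.MX

open Pool.Agent.TH444.ML

/-- `X × {0, 1} ^ k` -/
def Pt (X : Type) : ℕ → Type
  | 0 => X
  | k + 1 => Pt X k × Bool

/-- `C₂ ≀ ⋯ ≀ C₂ ≀_X H`, with `k` factors `C₂` -/
def Gp (H X : Type) [Group H] [MulAction H X] : (k : ℕ) → Subgroup (Equiv.Perm (Pt X k))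
  | 0 => (MulAction.toPermHom H X).range
  | k + 1 => wr (Gp H X k)

theorem pt_finite (X : Type) [Finite X] : ∀ k, Finite (Pt X k)
  | 0 => inferInstanceAs (Finite X)
  | k + 1 => by
    have := pt_finite X k
    exact inferInstanceAs (Finite (Pt X k × Bool))

theorem pt_nonempty (X : Type) [Nonempty X] : ∀ k, Nonempty (Pt X k)
  | 0 => inferInstanceAs (Nonempty X)
  | k + 1 => by
    have := pt_nonempty X k
    exact inferInstanceAs (Nonempty (Pt X k × Bool))

theorem galx_range {K Ω : Type} [Field K] [Field Ω] [Algebra K Ω] (H X : Type) [Group H]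
    [MulAction H X] : GalX K Ω (MulAction.toPermHom H X).range X = GalX K Ω H X := by
  ext M
  constructor
  · rintro ⟨h1, e, h2, h3⟩
    refine ⟨h1, e, ?_, ?_⟩
    · intro h
      exact h2 ⟨MulAction.toPermHom H X h, h, rfl⟩
    · intro σ
      obtain ⟨⟨g, h, rfl⟩, hg⟩ := h3 σ
      exact ⟨h, hg⟩
  · rintro ⟨h1, e, h2, h3⟩
    refine ⟨h1, e, ?_, ?_⟩
    · rintro ⟨g, h, rfl⟩
      exact h2 h
    · intro σ
      obtain ⟨h, hg⟩ := h3 σ
      exact ⟨⟨MulAction.toPermHom H X h, h, rfl⟩, hg⟩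

/-- the asymptotic formula for all good pairs, as a statement -/
def S_MG : Prop :=
  ∀ (K Ω : Type) [Field K] [NumberField K] [Field Ω] [Algebra K Ω] [IsAlgClosure K Ω]
    (H X : Type) [Group H] [MulAction H X] [Finite H] [Finite X] [FaithfulSMul H X],
    Good K Ω H X → ∀ D : ℝ, 0 < D →
    (∀ Z : ℝ, 0 < Z → {L : IntermediateField K Ω | Module.finrank K L = 2 * Nat.card X ∧
      IsWrX K Ω H X L ∧ dsc L ≤ Z * D}.Finite) ∧ ∃ c : ℝ, 0 < c ∧
      Tendsto (fun Z : ℝ => (Set.ncard {L : IntermediateField K Ω |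
        Module.finrank K L = 2 * Nat.card X ∧ IsWrX K Ω H X L ∧ dsc L ≤ Z * D} : ℝ) / Z)
        atTop (𝓝 c)

theorem good_tower (hm : S_MG) (hitr : S_ITR) (K Ω : Type) [Field K] [NumberField K] [Field Ω]
    [Algebra K Ω] [IsAlgClosure K Ω] (H X : Type) [Group H] [MulAction H X] [Finite X]
    [Nonempty X] (hg : Good K Ω H X) : ∀ k, Good K Ω (Gp H X k) (Pt X k)
  | 0 => by
    have h := hg
    unfold Good at h ⊢
    change (GalX K Ω (MulAction.toPermHom H X).range X).Nonempty ∧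
      Summable (fun M : GalX K Ω (MulAction.toPermHom H X).range X =>
        (dsc M.1) ^ (-(5 / 4) : ℝ))
    rw [galx_range]
    exact h
  | k + 1 => by
    have h := good_tower hm hitr K Ω H X hg k
    have := pt_finite X k
    have := pt_nonempty X k
    obtain ⟨h1, h2⟩ := hm K Ω (Gp H X k) (Pt X k) h 1 one_pos
    exact hitr K Ω (Pt X k) (Gp H X k) h1 h2

/-- `G ≤ S_n` is, up to a numbering of `X × {0, 1} ^ k`, the group `C₂ ≀ ⋯ ≀ C₂ ≀_X H`. -/
def IsTower (H X : Type) [Group H] [MulAction H X] (k : ℕ) {n : ℕ}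
    (G : Subgroup (Equiv.Perm (Fin n))) : Prop :=
  ∃ f : Fin n ≃ Pt X k, ∀ π : Equiv.Perm (Fin n), π ∈ G ↔ f.symm.trans (π.trans f) ∈ Gp H X k

theorem isC2_aux {Y : Type} (G' : Subgroup (Equiv.Perm Y)) {n : ℕ}
    {G : Subgroup (Equiv.Perm (Fin n))} (f : Fin n ≃ Y × Bool)
    (hf : ∀ π : Equiv.Perm (Fin n), π ∈ G ↔ f.symm.trans (π.trans f) ∈ wr G') :
    IsC2WrX G' Y G := by
  refine ⟨f, fun π => ?_⟩
  rw [hf π]
  constructor
  · rintro ⟨h, hh, hx⟩
    refine ⟨⟨h, hh⟩, fun i => ?_⟩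
    have h1 := hx (f i)
    simp only [Equiv.trans_apply, Equiv.symm_apply_apply] at h1
    exact h1
  · rintro ⟨⟨h, hh⟩, hx⟩
    refine ⟨h, hh, fun x => ?_⟩
    have h1 := hx (f.symm x)
    rw [Equiv.apply_symm_apply] at h1
    exact h1

theorem isC2 {H X : Type} [Group H] [MulAction H X] {k n : ℕ} {G : Subgroup (Equiv.Perm (Fin n))}
    (hG : IsTower H X (k + 1) G) : IsC2WrX (Gp H X k) (Pt X k) G := by
  obtain ⟨f, hf⟩ := hG
  exact isC2_aux (Gp H X k) f hf

theorem asymp_tower (hm : S_MG) (hitr : S_ITR) (K : Type) [Field K] [NumberField K] (H X : Type)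
    [Group H] [MulAction H X] [Finite X] [Nonempty X]
    (hg : Good K (AlgebraicClosure K) H X) {k n : ℕ} (G : Subgroup (Equiv.Perm (Fin n)))
    (hG : IsTower H X (k + 1) G) :
    (∀ T : ℝ, 0 < T → (Cnt K G T).Finite) ∧ ∃ c : ℝ, 0 < c ∧
      Tendsto (fun T : ℝ => (Set.ncard (Cnt K G T) : ℝ) / T) atTop (𝓝 c) := by
  have hd : 0 < ((|discr K| : ℤ) : ℝ) ^ n := by
    have : (0 : ℤ) < |discr K| := abs_pos.2 (discr_ne_zero K)
    have : (0 : ℝ) < ((|discr K| : ℤ) : ℝ) := by exact_mod_cast this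
    positivity
  have := pt_finite X k
  have := pt_nonempty X k
  have h := hm K (AlgebraicClosure K) (Gp H X k) (Pt X k)
    (good_tower hm hitr K (AlgebraicClosure K) H X hg k) _ hd
  simp only [cnt_eq K (isC2 hG)]
  exact h

end Pool.Agent.D0H64.MX
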